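import Mathlib

set_option autoImplicit false
open MeasureTheory Set Filter Topology

namespace Pool.Agent.W34023b

/-- increments of the walk -/
def inc (r : ℤ) : ℤ := if r = 1 then 1 else if r = 2 then -1 else 0

/-- the value of the stopped walk at the `4`-adic interval with index `j` of level `m` -/
def S : ℕ → ℤ → ℤ
  | 0, j => if j = 0 then 1 else 0
  | (m+1), j => if S m (j / 4) = 0 then 0 else S m (j / 4) + inc (j % 4)

lemma S_zero (j : ℤ) : S 0 j = if j = 0 then 1 else 0 := rfl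

lemma S_succ (m : ℕ) (j : ℤ) :
    S (m+1) j = if S m (j / 4) = 0 then 0 else S m (j / 4) + inc (j % 4) := rfl

lemma inc_bound (r : ℤ) : -1 ≤ inc r ∧ inc r ≤ 1 := by
  unfold inc; split_ifs <;> omega

lemma S_nonneg (m : ℕ) : ∀ j, 0 ≤ S m j := by
  induction m with
  | zero => intro j; rw [S_zero]; split_ifs <;> omega
  | succ m ih =>
    intro j; rw [S_succ]
    have h1 := ih (j / 4)
    have h2 := inc_bound (j % 4)
    split_ifs <;> omega

lemma S_le (m : ℕ) : ∀ j, S m j ≤ m + 1 := by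
  induction m with
  | zero => intro j; rw [S_zero]; split_ifs <;> simp
  | succ m ih =>
    intro j; rw [S_succ]
    have h1 := ih (j / 4)
    have h2 := inc_bound (j % 4)
    push_cast
    split_ifs <;> omega

lemma S_supp (m : ℕ) : ∀ j, S m j ≠ 0 → 0 ≤ j ∧ j < 4 ^ m := by
  induction m with
  | zero => intro j; rw [S_zero]; split_ifs <;> simp_all
  | succ m ih =>
    intro j hj; rw [S_succ] at hj
    have h0 : S m (j / 4) ≠ 0 := by
      intro h; simp [h] at hj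
    have h1 := ih (j / 4) h0
    rw [pow_succ]
    omega

lemma S_parent (m : ℕ) (j : ℤ) (h : S (m+1) j ≠ 0) : S m (j / 4) ≠ 0 := by
  intro h0; apply h; rw [S_succ]; simp [h0]

lemma S_adj (m : ℕ) : ∀ j, |S m (j + 1) - S m j| ≤ 2 := by
  induction m with
  | zero =>
    intro j; rw [S_zero, S_zero, abs_le]
    split_ifs <;> omega
  | succ m ih =>
    intro j
    rw [S_succ, S_succ]
    have h1 := ih (j / 4)
    rcases (by omega : j % 4 = 0 ∨ j % 4 = 1 ∨ j % 4 = 2 ∨ j % 4 = 3) with h | h | h | h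
    · have e1 : (j + 1) / 4 = j / 4 := by omega
      have e2 : (j + 1) % 4 = 1 := by omega
      rw [e1, e2, h]; simp only [inc]
      split_ifs <;> simp_all
    · have e1 : (j + 1) / 4 = j / 4 := by omega
      have e2 : (j + 1) % 4 = 2 := by omega
      rw [e1, e2, h]; simp only [inc]
      split_ifs <;> simp_all
    · have e1 : (j + 1) / 4 = j / 4 := by omega
      have e2 : (j + 1) % 4 = 3 := by omega
      rw [e1, e2, h]; simp only [inc]
      split_ifs <;> simp_all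
    · have e1 : (j + 1) / 4 = j / 4 + 1 := by omega
      have e2 : (j + 1) % 4 = 0 := by omega
      rw [e1, e2, h]; simp only [inc]
      split_ifs <;> simp_all

lemma S_lip_nat (m : ℕ) (j : ℤ) (n : ℕ) : |S m (j + n) - S m j| ≤ 2 * n := by
  induction n with
  | zero => simp
  | succ n ih =>
    have h1 := S_adj m (j + n)
    have e : (j + ((n + 1 : ℕ) : ℤ)) = j + n + 1 := by push_cast; ring
    rw [e]
    push_cast
    rw [abs_le] at *
    omega

lemma S_lip (m : ℕ) (i j : ℤ) : |S m i - S m j| ≤ 2 * |i - j| := by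
  rcases le_total j i with h | h
  · obtain ⟨n, hn⟩ := Int.eq_ofNat_of_zero_le (sub_nonneg.2 h)
    have h1 := S_lip_nat m j n
    have e : i = j + n := by omega
    rw [e]
    simpa using h1
  · obtain ⟨n, hn⟩ := Int.eq_ofNat_of_zero_le (sub_nonneg.2 h)
    have h1 := S_lip_nat m i n
    have e : j = i + n := by omega
    rw [e]
    rw [abs_sub_comm]
    simpa using h1

/-- the level `m` density -/
noncomputable def u (m : ℕ) (x : ℝ) : ℝ := ((S m ⌊(4:ℝ)^m * x⌋ : ℤ) : ℝ)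

lemma u_nonneg (m : ℕ) (x : ℝ) : 0 ≤ u m x := by
  unfold u; exact_mod_cast S_nonneg m _

lemma u_le (m : ℕ) (x : ℝ) : u m x ≤ m + 1 := by
  unfold u; exact_mod_cast S_le m _

lemma u_meas (m : ℕ) : Measurable (u m) := by
  unfold u
  have h1 : Measurable (fun x : ℝ => ⌊(4:ℝ)^m * x⌋) :=
    Int.measurable_floor.comp (measurable_const.mul measurable_id)
  exact (measurable_from_top (f := fun j : ℤ => ((S m j : ℤ) : ℝ))).comp h1

lemma u_supp (m : ℕ) (x : ℝ) (h : u m x ≠ 0) : 0 ≤ x ∧ x < 1 := by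
  have h1 : S m ⌊(4:ℝ)^m * x⌋ ≠ 0 := by
    intro h0; apply h; unfold u; rw [h0]; simp
  have h2 := S_supp m _ h1
  have hp : (0:ℝ) < (4:ℝ)^m := by positivity
  constructor
  · have := h2.1
    rw [Int.floor_nonneg] at this
    exact (mul_nonneg_iff_of_pos_left hp).1 this
  · have h3 : ((4:ℝ)^m * x) < (4:ℝ)^m := by
      have h4 := h2.2
      have : ⌊(4:ℝ)^m * x⌋ < ((4 ^ m : ℤ)) := h4
      rw [Int.floor_lt] at this
      push_cast at this
      exact this
    have h4 : (4:ℝ)^m * x < (4:ℝ)^m * 1 := by simpa using h3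
    exact lt_of_mul_lt_mul_left h4 hp.le

lemma floor_four (z : ℝ) : ⌊4 * z⌋ / 4 = ⌊z⌋ := by
  have h1 : (⌊z⌋ : ℝ) ≤ z := Int.floor_le z
  have h2 : z < ⌊z⌋ + 1 := Int.lt_floor_add_one z
  have h3 : 4 * ⌊z⌋ ≤ ⌊4 * z⌋ := by
    rw [Int.le_floor]; push_cast; linarith
  have h4 : ⌊4 * z⌋ < 4 * ⌊z⌋ + 4 := by
    rw [Int.floor_lt]; push_cast; linarith
  omega

lemma floor_succ (m : ℕ) (x : ℝ) : ⌊(4:ℝ)^(m+1) * x⌋ / 4 = ⌊(4:ℝ)^m * x⌋ := by
  have : (4:ℝ)^(m+1) * x = 4 * ((4:ℝ)^m * x) := by ring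
  rw [this, floor_four]

lemma u_succ (m : ℕ) (x : ℝ) :
    u (m+1) x - u m x = if S m ⌊(4:ℝ)^m * x⌋ = 0 then 0 else
      ((inc (⌊4 * ((4:ℝ)^m * x)⌋ % 4) : ℤ) : ℝ) := by
  unfold u
  rw [S_succ, floor_succ]
  have : (4:ℝ)^(m+1) * x = 4 * ((4:ℝ)^m * x) := by ring
  rw [this]
  split_ifs with h
  · rw [h]; simp
  · push_cast; ring

lemma u_diff (m : ℕ) (x x' : ℝ) : |u m x - u m x'| ≤ 2 * ((4:ℝ)^m * |x - x'| + 1) := by
  have h1 := S_lip m ⌊(4:ℝ)^m * x⌋ ⌊(4:ℝ)^m * x'⌋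
  have h2 : |u m x - u m x'| ≤ 2 * |(⌊(4:ℝ)^m * x⌋ : ℝ) - (⌊(4:ℝ)^m * x'⌋ : ℝ)| := by
    unfold u; exact_mod_cast h1
  have hp : (0:ℝ) < (4:ℝ)^m := by positivity
  have h3 : |(⌊(4:ℝ)^m * x⌋ : ℝ) - (⌊(4:ℝ)^m * x'⌋ : ℝ)| ≤ (4:ℝ)^m * |x - x'| + 1 := by
    have a1 := Int.floor_le ((4:ℝ)^m * x)
    have a2 := Int.lt_floor_add_one ((4:ℝ)^m * x)
    have a3 := Int.floor_le ((4:ℝ)^m * x')
    have a4 := Int.lt_floor_add_one ((4:ℝ)^m * x')
    have a5 : (4:ℝ)^m * |x - x'| = |(4:ℝ)^m * x - (4:ℝ)^m * x'| := by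
      rw [← mul_sub, abs_mul, abs_of_pos hp]
    rw [a5]
    have a6 := le_abs_self ((4:ℝ)^m * x - (4:ℝ)^m * x')
    have a7 := neg_abs_le ((4:ℝ)^m * x - (4:ℝ)^m * x')
    rw [abs_le]
    constructor <;> linarith
  linarith

end Pool.Agent.W34023b
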