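import Mathlib
import Pool.Agent.W34023b.A

set_option autoImplicit false
open MeasureTheory Set Filter Topology

namespace Pool.Agent.W34023b

/-- a tent supported in `[1/4, 3/4]` -/
noncomputable def hat (z : ℝ) : ℝ := max 0 (min (z - 1/4) (3/4 - z))

lemma hat_cont : Continuous hat := by unfold hat; fun_prop

lemma hat_nonneg (z : ℝ) : 0 ≤ hat z := le_max_left _ _

lemma hat_le (z : ℝ) : hat z ≤ 1/4 := by
  unfold hat
  apply max_le (by norm_num)
  rcases le_total z (1/2) with h | h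
  · exact (min_le_left _ _).trans (by linarith)
  · exact (min_le_right _ _).trans (by linarith)

/-- the primitive of `u (j+1) - u j` -/
noncomputable def H (j : ℕ) (x : ℝ) : ℝ :=
  if S j ⌊(4:ℝ)^j * x⌋ = 0 then 0 else hat (Int.fract ((4:ℝ)^j * x)) / (4:ℝ)^j

lemma H_nonneg (j : ℕ) (x : ℝ) : 0 ≤ H j x := by
  unfold H; split_ifs
  · exact le_rfl
  · exact div_nonneg (hat_nonneg _) (by positivity)

lemma H_le (j : ℕ) (x : ℝ) : H j x ≤ (1/4) / (4:ℝ)^j := by
  unfold H; split_ifs
  · positivity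
  · gcongr; exact hat_le _

/-- local form: the function `z ↦ c ⌊z⌋ * hat (fract z)` -/
noncomputable def K0 (c : ℤ → ℝ) (z : ℝ) : ℝ := c ⌊z⌋ * hat (Int.fract z)

lemma hat_eq_zero_left {z : ℝ} (h : z ≤ 1/4) : hat z = 0 := by
  unfold hat
  apply max_eq_left
  exact (min_le_left _ _).trans (by linarith)

lemma hat_eq_zero_right {z : ℝ} (h : 3/4 ≤ z) : hat z = 0 := by
  unfold hat
  apply max_eq_left
  exact (min_le_right _ _).trans (by linarith)

lemma K0_cont (c : ℤ → ℝ) : Continuous (K0 c) := by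
  rw [continuous_iff_continuousAt]
  intro z
  by_cases hz : Int.fract z = 0
  · -- near an integer, the function vanishes
    have h0 : K0 c =ᶠ[𝓝 z] fun _ => 0 := by
      have hz' : z = ⌊z⌋ := by
        have := Int.floor_add_fract z
        rw [hz] at this; linarith
      have hn : Ioo (z - 1/4) (z + 1/4) ∈ 𝓝 z := Ioo_mem_nhds (by linarith) (by linarith)
      filter_upwards [hn] with w hw
      unfold K0
      rcases le_or_gt z w with h | h
      · have hf : ⌊w⌋ = ⌊z⌋ := by
          rw [Int.floor_eq_iff]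
          constructor
          · linarith
          · linarith [hw.2]
        have : Int.fract w ≤ 1/4 := by
          unfold Int.fract; rw [hf]; linarith [hw.2]
        rw [hat_eq_zero_left this, mul_zero]
      · have hf : ⌊w⌋ = ⌊z⌋ - 1 := by
          rw [Int.floor_eq_iff]
          push_cast
          constructor
          · linarith [hw.1]
          · linarith
        have : 3/4 ≤ Int.fract w := by
          unfold Int.fract; rw [hf]; push_cast; linarith [hw.1]
        rw [hat_eq_zero_right this, mul_zero]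
    exact (continuousAt_const).congr h0.symm
  · have hpos : 0 < Int.fract z := lt_of_le_of_ne (Int.fract_nonneg z) (Ne.symm hz)
    have hlt := Int.fract_lt_one z
    have hfl := Int.floor_add_fract z
    have h0 : K0 c =ᶠ[𝓝 z] fun w => c ⌊z⌋ * hat (w - ⌊z⌋) := by
      have hn : Ioo ((⌊z⌋ : ℝ)) (⌊z⌋ + 1) ∈ 𝓝 z := Ioo_mem_nhds (by linarith) (by linarith)
      filter_upwards [hn] with w hw
      have hf : ⌊w⌋ = ⌊z⌋ := by
        rw [Int.floor_eq_iff]
        exact ⟨hw.1.le, hw.2⟩
      unfold K0 Int.fract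
      rw [hf]
    have h1 : ContinuousAt (fun w => c ⌊z⌋ * hat (w - ⌊z⌋)) z := by
      have := hat_cont
      fun_prop
    exact h1.congr h0.symm

lemma K0_deriv (c : ℤ → ℝ) (z : ℝ) :
    HasDerivWithinAt (K0 c) (c ⌊z⌋ * ((inc (⌊4 * z⌋ % 4) : ℤ) : ℝ)) (Ioi z) z := by
  set k := ⌊4 * z⌋ with hk
  have hk1 : (k : ℝ) ≤ 4 * z := Int.floor_le _
  have hk2 : 4 * z < k + 1 := Int.lt_floor_add_one _
  have hkn : k / 4 = ⌊z⌋ := floor_four z
  have key : ∀ w : ℝ, z ≤ w → 4 * w < k + 1 →
      K0 c w = c ⌊z⌋ * (hat (Int.fract z) + ((inc (k % 4) : ℤ) : ℝ) * (w - z)) := by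
    intro w hw1 hw2
    have hkw : ⌊4 * w⌋ = k := by
      rw [Int.floor_eq_iff]; constructor <;> linarith
    have hfw : ⌊w⌋ = ⌊z⌋ := by rw [← floor_four w, hkw, hkn]
    unfold K0
    rw [hfw]
    congr 1
    unfold Int.fract
    rw [hfw]
    obtain ⟨r, hr⟩ : ∃ r, r = k % 4 := ⟨_, rfl⟩
    have hkr : k = 4 * ⌊z⌋ + r := by rw [← hkn, hr]; omega
    have hkr' : (k : ℝ) = 4 * ⌊z⌋ + r := by exact_mod_cast hkr
    rw [← hr]
    rcases (by omega : r = 0 ∨ r = 1 ∨ r = 2 ∨ r = 3) with h | h | h | h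
    · subst h
      push_cast at hkr'
      have e1 : hat (w - ⌊z⌋) = 0 := hat_eq_zero_left (by linarith)
      have e2 : hat (z - ⌊z⌋) = 0 := hat_eq_zero_left (by linarith)
      rw [e1, e2]; simp [inc]
    · subst h
      push_cast at hkr'
      have e1 : hat (w - ⌊z⌋) = w - ⌊z⌋ - 1/4 := by
        unfold hat
        rw [min_eq_left (by linarith), max_eq_right (by linarith)]
      have e2 : hat (z - ⌊z⌋) = z - ⌊z⌋ - 1/4 := by
        unfold hat
        rw [min_eq_left (by linarith), max_eq_right (by linarith)]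
      have e3 : inc 1 = 1 := by decide
      rw [e1, e2, e3]; push_cast; ring
    · subst h
      push_cast at hkr'
      have e1 : hat (w - ⌊z⌋) = 3/4 - (w - ⌊z⌋) := by
        unfold hat
        rw [min_eq_right (by linarith), max_eq_right (by linarith)]
      have e2 : hat (z - ⌊z⌋) = 3/4 - (z - ⌊z⌋) := by
        unfold hat
        rw [min_eq_right (by linarith), max_eq_right (by linarith)]
      have e3 : inc 2 = -1 := by decide
      rw [e1, e2, e3]; push_cast; ring
    · subst h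
      push_cast at hkr'
      have e1 : hat (w - ⌊z⌋) = 0 := hat_eq_zero_right (by linarith)
      have e2 : hat (z - ⌊z⌋) = 0 := hat_eq_zero_right (by linarith)
      rw [e1, e2]; simp [inc]
  have hlin : HasDerivWithinAt
      (fun w => c ⌊z⌋ * (hat (Int.fract z) + ((inc (k % 4) : ℤ) : ℝ) * (w - z)))
      (c ⌊z⌋ * ((inc (k % 4) : ℤ) : ℝ)) (Ioi z) z := by
    have h1 : HasDerivAt (fun w : ℝ => w - z) 1 z := (hasDerivAt_id z).sub_const z
    have h2 := ((h1.const_mul ((inc (k % 4) : ℤ) : ℝ)).const_add (hat (Int.fract z))).const_mul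
      (c ⌊z⌋)
    simpa using h2.hasDerivWithinAt
  refine hlin.congr_of_eventuallyEq ?_ (key z le_rfl hk2)
  have hn : Ioo z ((k + 1) / 4 : ℝ) ∈ 𝓝[>] z := Ioo_mem_nhdsGT (by linarith)
  filter_upwards [hn] with w hw
  exact key w hw.1.le (by linarith [hw.2])

lemma H_eq (j : ℕ) (x : ℝ) :
    H j x = K0 (fun i => if S j i = 0 then 0 else 1) ((4:ℝ)^j * x) / (4:ℝ)^j := by
  unfold H K0
  by_cases h : S j ⌊(4:ℝ)^j * x⌋ = 0
  · simp [h]
  · simp [h]

lemma H_cont (j : ℕ) : Continuous (H j) := by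
  have : H j = fun x => K0 (fun i => if S j i = 0 then 0 else 1) ((4:ℝ)^j * x) / (4:ℝ)^j := by
    funext x; exact H_eq j x
  rw [this]
  have h1 := K0_cont (fun i => if S j i = 0 then 0 else 1)
  have h2 : Continuous (fun x : ℝ => (4:ℝ)^j * x) := by fun_prop
  exact (h1.comp h2).div_const _

lemma H_deriv (j : ℕ) (x : ℝ) :
    HasDerivWithinAt (H j) (u (j+1) x - u j x) (Ioi x) x := by
  have hp : (0:ℝ) < (4:ℝ)^j := by positivity
  have h0 : H j = fun x => K0 (fun i => if S j i = 0 then 0 else 1) ((4:ℝ)^j * x) / (4:ℝ)^j := by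
    funext x; exact H_eq j x
  rw [h0]
  have h1 := K0_deriv (fun i => if S j i = 0 then 0 else 1) ((4:ℝ)^j * x)
  have h2 : HasDerivWithinAt (fun x : ℝ => (4:ℝ)^j * x) ((4:ℝ)^j * 1) (Ioi x) x :=
    ((hasDerivAt_id x).const_mul ((4:ℝ)^j)).hasDerivWithinAt
  have hm : MapsTo (fun x : ℝ => (4:ℝ)^j * x) (Ioi x) (Ioi ((4:ℝ)^j * x)) := by
    intro w hw
    exact mul_lt_mul_of_pos_left hw hp
  have h3 := (h1.scomp x h2 hm).div_const ((4:ℝ)^j)
  refine h3.congr_deriv ?_
  rw [u_succ]
  simp only [smul_eq_mul]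
  split_ifs
  · simp
  · field_simp

lemma u_intervalIntegrable (m : ℕ) (a b : ℝ) : IntervalIntegrable (u m) volume a b := by
  refine (intervalIntegrable_const (c := (m + 1 : ℝ))).mono_fun (u_meas m).aestronglyMeasurable ?_
  refine Filter.Eventually.of_forall fun x => ?_
  simp only [Real.norm_eq_abs]
  rw [abs_of_nonneg (u_nonneg m x), abs_of_nonneg (by positivity)]
  exact u_le m x

lemma integral_succ (j : ℕ) (a b : ℝ) :
    ∫ x in a..b, (u (j+1) x - u j x) = H j b - H j a := by
  apply intervalIntegral.integral_eq_sub_of_hasDeriv_right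
  · exact (H_cont j).continuousOn
  · intro x _; exact H_deriv j x
  · exact (u_intervalIntegrable _ _ _).sub (u_intervalIntegrable _ _ _)

lemma integral_diff_bound (m N : ℕ) (h : m ≤ N) (a b : ℝ) :
    |∫ x in a..b, (u N x - u m x)| ≤ (1/3) * (1/(4:ℝ)^m - 1/(4:ℝ)^N) := by
  induction N, h using Nat.le_induction with
  | base => simp
  | succ N hmN ih =>
    have e : ∫ x in a..b, (u (N+1) x - u m x) =
        (∫ x in a..b, (u (N+1) x - u N x)) + ∫ x in a..b, (u N x - u m x) := by
      rw [← intervalIntegral.integral_add]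
      · congr 1; funext x; ring
      · exact (u_intervalIntegrable _ _ _).sub (u_intervalIntegrable _ _ _)
      · exact (u_intervalIntegrable _ _ _).sub (u_intervalIntegrable _ _ _)
    rw [e, integral_succ]
    have h1 : |H N b - H N a| ≤ (1/4) / (4:ℝ)^N := by
      rw [abs_le]
      constructor <;> linarith [H_nonneg N a, H_nonneg N b, H_le N a, H_le N b]
    have h2 : (1/4) / (4:ℝ)^N = (1/3) * (1/(4:ℝ)^N - 1/(4:ℝ)^(N+1)) := by
      rw [pow_succ]; field_simp; norm_num
    calc |H N b - H N a + ∫ x in a..b, (u N x - u m x)|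
        ≤ |H N b - H N a| + |∫ x in a..b, (u N x - u m x)| := abs_add_le _ _
      _ ≤ (1/3) * (1/(4:ℝ)^N - 1/(4:ℝ)^(N+1)) + (1/3) * (1/(4:ℝ)^m - 1/(4:ℝ)^N) := by
          rw [← h2]; exact add_le_add h1 ih
      _ = _ := by ring

end Pool.Agent.W34023b
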