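import Mathlib
import Pool.Agent.W34023b.B

set_option autoImplicit false
open MeasureTheory Set Filter Topology

namespace Pool.Agent.W34023b

/-- left endpoints of the surviving intervals -/
def D : Set ℝ := {x | ∃ (m : ℕ) (j : ℤ), S m j ≠ 0 ∧ x = (j : ℝ) / (4:ℝ)^m}

/-- the exceptional null set -/
def E : Set ℝ := closure D

/-- union of closed surviving intervals of level `m` -/
def C (m : ℕ) : Set ℝ := {x | ∃ j : ℤ, S m j ≠ 0 ∧ (j : ℝ) ≤ (4:ℝ)^m * x ∧ (4:ℝ)^m * x ≤ j + 1}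

lemma C_anti (m : ℕ) : C (m+1) ⊆ C m := by
  rintro x ⟨j, hj, h1, h2⟩
  refine ⟨j / 4, S_parent m j hj, ?_, ?_⟩
  · have h3 : 4 * (j / 4) ≤ j := by omega
    have h4 : (4:ℝ) * ((j / 4 : ℤ) : ℝ) ≤ j := by exact_mod_cast h3
    have h5 : (4:ℝ)^(m+1) * x = 4 * ((4:ℝ)^m * x) := by ring
    rw [h5] at h1
    linarith
  · have h3 : j + 1 ≤ 4 * (j / 4) + 4 := by omega
    have h4 : (j : ℝ) + 1 ≤ (4:ℝ) * ((j / 4 : ℤ) : ℝ) + 4 := by exact_mod_cast h3
    have h5 : (4:ℝ)^(m+1) * x = 4 * ((4:ℝ)^m * x) := by ring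
    rw [h5] at h2
    linarith

lemma S_left (m : ℕ) (j : ℤ) : S (m+1) (4 * j) = S m j := by
  rw [S_succ]
  have e1 : 4 * j / 4 = j := by omega
  have e2 : 4 * j % 4 = 0 := by omega
  rw [e1, e2]
  have e3 : inc 0 = 0 := by decide
  rw [e3]
  split_ifs with h
  · exact h.symm
  · ring

lemma left_mem (n m : ℕ) (j : ℤ) (hj : S m j ≠ 0) : (j : ℝ) / (4:ℝ)^m ∈ C (m + n) := by
  induction n generalizing m j with
  | zero =>
    have hp : (0:ℝ) < (4:ℝ)^m := by positivity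
    refine ⟨j, hj, ?_, ?_⟩
    · simp only [add_zero]; rw [mul_div_cancel₀ _ hp.ne']
    · simp only [add_zero]; rw [mul_div_cancel₀ _ hp.ne']; linarith
  | succ n ih =>
    have h1 := ih (m+1) (4 * j) (by rw [S_left]; exact hj)
    have h2 : (((4 * j : ℤ)) : ℝ) / (4:ℝ)^(m+1) = (j : ℝ) / (4:ℝ)^m := by
      push_cast; rw [pow_succ]; field_simp
    rw [h2] at h1
    have h3 : m + (n + 1) = m + 1 + n := by ring
    rw [h3]; exact h1

lemma C_anti' (m n : ℕ) : C (m + n) ⊆ C m := by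
  induction n with
  | zero => exact le_rfl
  | succ n ih => exact (C_anti (m + n)).trans ih

lemma D_sub (m : ℕ) : D ⊆ C m := by
  rintro x ⟨m', j, hj, rfl⟩
  rcases le_total m m' with h | h
  · obtain ⟨n, rfl⟩ := Nat.exists_eq_add_of_le h
    exact C_anti' m n (left_mem 0 (m+n) j hj)
  · obtain ⟨n, rfl⟩ := Nat.exists_eq_add_of_le h
    exact left_mem n m' j hj

lemma C_eq (m : ℕ) : C m = ⋃ j ∈ (Finset.range (4^m)).filter (fun j : ℕ => S m (j:ℤ) ≠ 0),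
    Icc ((j : ℝ) / (4:ℝ)^m) (((j : ℝ) + 1) / (4:ℝ)^m) := by
  have hp : (0:ℝ) < (4:ℝ)^m := by positivity
  ext x
  simp only [C, mem_setOf_eq, mem_iUnion, Finset.mem_filter, Finset.mem_range, exists_prop, mem_Icc]
  constructor
  · rintro ⟨j, hj, h1, h2⟩
    have hs := S_supp m j hj
    obtain ⟨n, rfl⟩ := Int.eq_ofNat_of_zero_le hs.1
    refine ⟨n, ⟨by exact_mod_cast hs.2, hj⟩, ?_, ?_⟩
    · rw [div_le_iff₀ hp]; push_cast at h1; linarith
    · rw [le_div_iff₀ hp]; push_cast at h2; linarith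
  · rintro ⟨n, ⟨_, hn⟩, h1, h2⟩
    refine ⟨n, hn, ?_, ?_⟩
    · rw [div_le_iff₀ hp] at h1; push_cast; linarith
    · rw [le_div_iff₀ hp] at h2; push_cast; linarith

lemma C_closed (m : ℕ) : IsClosed (C m) := by
  rw [C_eq]
  exact isClosed_biUnion_finset fun _ _ => isClosed_Icc

lemma E_sub (m : ℕ) : E ⊆ C m := closure_minimal (D_sub m) (C_closed m)

/-- proportion of surviving intervals -/
noncomputable def P (m : ℕ) : ℝ :=
  (∑ j ∈ Finset.range (4^m), if S m (j:ℤ) = 0 then (0:ℝ) else 1) / (4:ℝ)^m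

lemma vol_C (m : ℕ) : volume (C m) ≤ ENNReal.ofReal (P m) := by
  have hp : (0:ℝ) < (4:ℝ)^m := by positivity
  rw [C_eq]
  refine (measure_biUnion_finset_le _ _).trans ?_
  have h1 : ∀ j : ℕ, volume (Icc ((j : ℝ) / (4:ℝ)^m) (((j : ℝ) + 1) / (4:ℝ)^m)) =
      ENNReal.ofReal (1 / (4:ℝ)^m) := by
    intro j
    rw [Real.volume_Icc]
    congr 1
    field_simp
    ring
  simp only [h1]
  rw [Finset.sum_const, nsmul_eq_mul]
  unfold P
  have h2 : (∑ j ∈ Finset.range (4^m), if S m (j:ℤ) = 0 then (0:ℝ) else 1) =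
      (((Finset.range (4^m)).filter (fun j : ℕ => S m (j:ℤ) ≠ 0)).card : ℝ) := by
    rw [Finset.card_filter]
    push_cast
    apply Finset.sum_congr rfl
    intro j _
    by_cases h : S m (j:ℤ) = 0 <;> simp [h]
  rw [h2, ← ENNReal.ofReal_natCast, ← ENNReal.ofReal_mul (by positivity)]
  apply le_of_eq
  congr 1
  ring

lemma sum4 (F : ℕ → ℝ) (n : ℕ) : ∑ i ∈ Finset.range (4 * n), F i =
    ∑ j ∈ Finset.range n, (F (4*j) + F (4*j+1) + F (4*j+2) + F (4*j+3)) := by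
  induction n with
  | zero => simp
  | succ n ih =>
    rw [Finset.sum_range_succ, ← ih]
    have : 4 * (n + 1) = 4 * n + 1 + 1 + 1 + 1 := by ring
    rw [this, Finset.sum_range_succ, Finset.sum_range_succ, Finset.sum_range_succ,
      Finset.sum_range_succ]
    ring

/-- average of `g` over the values at level `m` -/
noncomputable def G (g : ℤ → ℝ) (m : ℕ) : ℝ :=
  (∑ j ∈ Finset.range (4^m), g (S m (j:ℤ))) / (4:ℝ)^m

lemma G_succ (g : ℤ → ℝ) (h0 : g 0 = 0) (m : ℕ) : G g (m+1) - G g m =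
    (∑ j ∈ Finset.range (4^m), if S m (j:ℤ) = 0 then 0 else
      (g (S m j + 1) + g (S m j - 1) - 2 * g (S m j)) / 4) / (4:ℝ)^m := by
  have hp : (0:ℝ) < (4:ℝ)^m := by positivity
  unfold G
  have e1 : (4^(m+1) : ℕ) = 4 * 4^m := by rw [pow_succ]; ring
  rw [e1, sum4, pow_succ, ← div_div, div_right_comm, ← sub_div, Finset.sum_div,
    ← Finset.sum_sub_distrib]
  congr 1
  apply Finset.sum_congr rfl
  intro j _
  have a0 : S (m+1) (((4*j : ℕ)) : ℤ) = if S m j = 0 then 0 else S m j := by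
    rw [S_succ]
    have b1 : (((4*j : ℕ)) : ℤ) / 4 = j := by omega
    have b2 : (((4*j : ℕ)) : ℤ) % 4 = 0 := by omega
    rw [b1, b2]; simp [inc]
  have a1 : S (m+1) (((4*j+1 : ℕ)) : ℤ) = if S m j = 0 then 0 else S m j + 1 := by
    rw [S_succ]
    have b1 : (((4*j+1 : ℕ)) : ℤ) / 4 = j := by omega
    have b2 : (((4*j+1 : ℕ)) : ℤ) % 4 = 1 := by omega
    rw [b1, b2]; simp [inc]
  have a2 : S (m+1) (((4*j+2 : ℕ)) : ℤ) = if S m j = 0 then 0 else S m j - 1 := by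
    rw [S_succ]
    have b1 : (((4*j+2 : ℕ)) : ℤ) / 4 = j := by omega
    have b2 : (((4*j+2 : ℕ)) : ℤ) % 4 = 2 := by omega
    rw [b1, b2]; simp [inc]; rfl
  have a3 : S (m+1) (((4*j+3 : ℕ)) : ℤ) = if S m j = 0 then 0 else S m j := by
    rw [S_succ]
    have b1 : (((4*j+3 : ℕ)) : ℤ) / 4 = j := by omega
    have b2 : (((4*j+3 : ℕ)) : ℤ) % 4 = 3 := by omega
    rw [b1, b2]; simp [inc]
  rw [a0, a1, a2, a3]
  split_ifs with h
  · rw [h]; simp [h0]
  · ring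

lemma G_id (m : ℕ) : G (fun s => (s : ℝ)) m = 1 := by
  induction m with
  | zero => simp [G, S]
  | succ m ih =>
    have h := G_succ (fun s => (s : ℝ)) (by simp) m
    have h2 : (∑ j ∈ Finset.range (4^m), if S m (j:ℤ) = 0 then (0:ℝ) else
      ((((S m j + 1 : ℤ)) : ℝ) + ((S m j - 1 : ℤ) : ℝ) - 2 * ((S m j : ℤ) : ℝ)) / 4) = 0 := by
      apply Finset.sum_eq_zero
      intro j _
      split_ifs
      · rfl
      · push_cast; ring
    rw [h2] at h
    simp at h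
    linarith

noncomputable def Q (m : ℕ) : ℝ :=
  (∑ j ∈ Finset.range (4^m), if S m (j:ℤ) = 0 then (0:ℝ) else (2:ℝ)^(-(S m (j:ℤ)))) / (4:ℝ)^m

lemma Q_nonneg (m : ℕ) : 0 ≤ Q m := by
  unfold Q
  apply div_nonneg _ (by positivity)
  apply Finset.sum_nonneg
  intro j _
  split_ifs <;> positivity

lemma G_exp (m : ℕ) : G (fun s => 1 - (2:ℝ)^(-s)) (m+1) - G (fun s => 1 - (2:ℝ)^(-s)) m
    = - (1/8) * Q m := by
  rw [G_succ _ (by simp)]
  unfold Q
  rw [mul_div_assoc', Finset.mul_sum]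
  congr 1
  apply Finset.sum_congr rfl
  intro j _
  split_ifs with h
  · simp
  · have e1 : (2:ℝ)^(-(S m (j:ℤ) + 1)) = (2:ℝ)^(-(S m (j:ℤ))) / 2 := by
      rw [neg_add, zpow_add₀ (by norm_num)]; norm_num; ring
    have e2 : (2:ℝ)^(-(S m (j:ℤ) - 1)) = (2:ℝ)^(-(S m (j:ℤ))) * 2 := by
      rw [neg_sub, sub_eq_add_neg, add_comm, zpow_add₀ (by norm_num)]; norm_num
    rw [e1, e2]; ring

lemma G_exp_nonneg (m : ℕ) : 0 ≤ G (fun s => 1 - (2:ℝ)^(-s)) m := by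
  unfold G
  apply div_nonneg _ (by positivity)
  apply Finset.sum_nonneg
  intro j _
  have h := S_nonneg m (j:ℤ)
  have : (2:ℝ)^(-(S m (j:ℤ))) ≤ 1 := by
    apply zpow_le_one_of_nonpos₀ (by norm_num) (by omega)
  linarith

lemma Q_sum (M : ℕ) : ∑ m ∈ Finset.range M, Q m ≤ 4 := by
  have h : ∀ M, G (fun s => 1 - (2:ℝ)^(-s)) M = 1/2 - (1/8) * ∑ m ∈ Finset.range M, Q m := by
    intro M
    induction M with
    | zero => simp [G, S]; norm_num
    | succ M ih =>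
      rw [Finset.sum_range_succ]
      have := G_exp M
      linarith
  have h1 := h M
  have h2 := G_exp_nonneg M
  linarith

lemma Q_small (δ : ℝ) (hδ : 0 < δ) : ∃ m, Q m ≤ δ := by
  by_contra hcon
  push Not at hcon
  obtain ⟨M, hM⟩ := exists_nat_gt (4 / δ)
  have h1 : (M : ℝ) * δ ≤ ∑ m ∈ Finset.range M, Q m := by
    rw [← nsmul_eq_mul]
    have := Finset.card_nsmul_le_sum (Finset.range M) Q δ (fun m _ => (hcon m).le)
    simpa using this
  have h2 := Q_sum M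
  rw [div_lt_iff₀ hδ] at hM
  linarith

lemma P_bound (m M : ℕ) (hM : 0 < M) : P m ≤ 1 / (M:ℝ) + (2:ℝ)^M * Q m := by
  have hp : (0:ℝ) < (4:ℝ)^m := by positivity
  have hM' : (0:ℝ) < M := by exact_mod_cast hM
  have h1 : P m ≤ (1 / (M:ℝ)) * G (fun s => (s : ℝ)) m + (2:ℝ)^M * Q m := by
    unfold P G Q
    rw [mul_div_assoc', mul_div_assoc', ← add_div]
    gcongr
    rw [Finset.mul_sum, Finset.mul_sum, ← Finset.sum_add_distrib]
    apply Finset.sum_le_sum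
    intro j _
    have hs := S_nonneg m (j:ℤ)
    split_ifs with h
    · rw [h]; simp
    · have hs1 : 1 ≤ S m (j:ℤ) := by omega
      rcases le_total (M:ℤ) (S m (j:ℤ)) with hc | hc
      · have hc' : (M:ℝ) ≤ ((S m (j:ℤ) : ℤ) : ℝ) := by exact_mod_cast hc
        have : 1 ≤ 1 / (M:ℝ) * ((S m (j:ℤ) : ℤ) : ℝ) := by
          rw [one_div, inv_mul_eq_div, one_le_div hM']; exact hc'
        have h2 : (0:ℝ) ≤ (2:ℝ)^M * (2:ℝ)^(-(S m (j:ℤ))) := by positivity
        linarith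
      · have : 1 ≤ (2:ℝ)^M * (2:ℝ)^(-(S m (j:ℤ))) := by
          rw [← zpow_natCast, ← zpow_add₀ (by norm_num)]
          apply one_le_zpow₀ (by norm_num) (by omega)
        have h2 : (0:ℝ) ≤ 1 / (M:ℝ) * ((S m (j:ℤ) : ℤ) : ℝ) := by
          apply mul_nonneg (by positivity)
          exact_mod_cast hs
        linarith
  rw [G_id, mul_one] at h1
  exact h1

lemma P_small (ε : ℝ) (hε : 0 < ε) : ∃ m, P m ≤ ε := by
  obtain ⟨M, hM⟩ := exists_nat_gt (2 / ε)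
  have hM0 : (0:ℝ) < M := lt_trans (by positivity) hM
  have hM1 : 0 < M := by exact_mod_cast hM0
  obtain ⟨m, hm⟩ := Q_small (ε / 2 / (2:ℝ)^M) (by positivity)
  refine ⟨m, (P_bound m M hM1).trans ?_⟩
  have h1 : 1 / (M:ℝ) ≤ ε / 2 := by
    rw [div_le_iff₀ hM0]
    rw [div_lt_iff₀ hε] at hM
    linarith
  have h2 : (2:ℝ)^M * Q m ≤ ε / 2 := by
    rw [le_div_iff₀ (by positivity)] at hm
    linarith
  linarith

lemma E_null : volume E = 0 := by
  by_contra hcon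
  have hpos : 0 < volume E := pos_iff_ne_zero.2 hcon
  obtain ⟨ε, hε0, hε⟩ := ENNReal.lt_iff_exists_real_btwn.1 hpos
  have hε1 : 0 < ε := by
    by_contra h
    push Not at h
    have := hε.1
    rw [ENNReal.ofReal_of_nonpos h] at this
    exact lt_irrefl _ this
  obtain ⟨m, hm⟩ := P_small ε hε1
  have h1 : volume E ≤ ENNReal.ofReal ε :=
    (measure_mono (E_sub m)).trans ((vol_C m).trans (ENNReal.ofReal_le_ofReal hm))
  exact absurd hε.2 (not_lt.2 h1)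

lemma E_closed : IsClosed E := isClosed_closure

lemma zero_mem_D : (0:ℝ) ∈ D := ⟨0, 0, by simp [S], by simp⟩

lemma E_nonempty : E.Nonempty := ⟨0, subset_closure zero_mem_D⟩

lemma E_sub_Icc : E ⊆ Icc 0 1 := by
  intro x hx
  obtain ⟨j, hj, h1, h2⟩ := E_sub 0 hx
  have hs := S_supp 0 j hj
  have : j = 0 := by omega
  subst this
  simp at h1 h2
  exact ⟨h1, h2⟩

/-- if `u N t ≠ 0` then `t` is within `4^{-N}` of `E` -/
lemma infDist_u (N : ℕ) (t : ℝ) (h : u N t ≠ 0) : Metric.infDist t E ≤ 1 / (4:ℝ)^N := by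
  have hp : (0:ℝ) < (4:ℝ)^N := by positivity
  have h1 : S N ⌊(4:ℝ)^N * t⌋ ≠ 0 := by
    intro h0; apply h; unfold u; rw [h0]; simp
  have h2 : ((⌊(4:ℝ)^N * t⌋ : ℤ) : ℝ) / (4:ℝ)^N ∈ E := subset_closure ⟨N, _, h1, rfl⟩
  refine (Metric.infDist_le_dist_of_mem h2).trans ?_
  rw [Real.dist_eq]
  have a1 := Int.floor_le ((4:ℝ)^N * t)
  have a2 := Int.lt_floor_add_one ((4:ℝ)^N * t)
  have e : t - ((⌊(4:ℝ)^N * t⌋ : ℤ) : ℝ) / (4:ℝ)^N =
      ((4:ℝ)^N * t - ((⌊(4:ℝ)^N * t⌋ : ℤ) : ℝ)) / (4:ℝ)^N := by field_simp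
  rw [e, abs_div, abs_of_pos hp]
  gcongr
  rw [abs_of_nonneg (by linarith)]
  linarith

end Pool.Agent.W34023b
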