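import Mathlib
import Pool.Agent.W34023b.C

set_option autoImplicit false
open MeasureTheory Set Filter Topology

namespace Pool.Agent.W34023b

/-- averages of the density -/
noncomputable def kap (N : ℕ) (a x : ℝ) : ℝ := ∫ s in (0:ℝ)..1, u N (x - s * a)

lemma kap_eq (N : ℕ) (a x : ℝ) (ha : a ≠ 0) : kap N a x = a⁻¹ * ∫ t in (x - a)..x, u N t := by
  unfold kap
  have h := intervalIntegral.integral_comp_sub_mul (f := u N) (a := 0) (b := 1) ha x
  have e : (fun s : ℝ => u N (x - s * a)) = fun s => u N (x - a * s) := by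
    funext s; rw [mul_comm]
  rw [e, h]
  simp

lemma u_comp_ii (N : ℕ) (x a : ℝ) : IntervalIntegrable (fun s => u N (x - s * a)) volume 0 1 := by
  refine (intervalIntegrable_const (c := (N + 1 : ℝ))).mono_fun ?_ ?_
  · exact ((u_meas N).comp (by fun_prop)).aestronglyMeasurable
  · refine Filter.Eventually.of_forall fun s => ?_
    simp only [Real.norm_eq_abs]
    rw [abs_of_nonneg (u_nonneg N _), abs_of_nonneg (by positivity)]
    exact u_le N _

lemma exists_level (N : ℕ) (y : ℝ) (h1 : 1 / (4:ℝ)^N ≤ y) (h2 : y ≤ 2) :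
    ∃ m, m ≤ N ∧ 1 / (4:ℝ)^m ≤ y ∧ (4:ℝ)^m * y ≤ 4 := by
  classical
  have hex : ∃ m, 1 / (4:ℝ)^m ≤ y := ⟨N, h1⟩
  refine ⟨Nat.find hex, Nat.find_min' hex h1, Nat.find_spec hex, ?_⟩
  rcases Nat.eq_zero_or_pos (Nat.find hex) with h | h
  · rw [h]; simp; linarith
  · obtain ⟨k, hk⟩ := Nat.exists_eq_succ_of_ne_zero h.ne'
    have h3 := Nat.find_min hex (m := k) (by omega)
    rw [hk]
    push Not at h3
    have hp : (0:ℝ) < (4:ℝ)^k := by positivity
    rw [lt_div_iff₀ hp] at h3
    rw [Nat.succ_eq_add_one, pow_succ]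
    linarith

lemma kap_diff_bound (N : ℕ) (x y : ℝ) (h1 : 1 / (4:ℝ)^N ≤ y) (h2 : y ≤ 2) :
    |kap N y x - kap N (-y) x| ≤ 19 := by
  obtain ⟨m, hmN, hm1, hm2⟩ := exists_level N y h1 h2
  have hp : (0:ℝ) < (4:ℝ)^m := by positivity
  have hy : 0 < y := lt_of_lt_of_le (by positivity) hm1
  -- decomposition
  have e1 : ∀ a : ℝ, kap N a x = kap m a x + ∫ s in (0:ℝ)..1, (u N (x - s * a) - u m (x - s * a)) := by
    intro a
    unfold kap
    rw [intervalIntegral.integral_sub (u_comp_ii N x a) (u_comp_ii m x a)]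
    ring
  have e2 : ∀ a : ℝ, a ≠ 0 → |a| = y →
      |∫ s in (0:ℝ)..1, (u N (x - s * a) - u m (x - s * a))| ≤ 1/3 := by
    intro a ha hay
    have h := intervalIntegral.integral_comp_sub_mul (f := fun t => u N t - u m t)
      (a := 0) (b := 1) ha x
    have e : (fun s : ℝ => u N (x - s * a) - u m (x - s * a)) =
        fun s => (fun t => u N t - u m t) (x - a * s) := by
      funext s; simp only; rw [mul_comm]
    rw [e, h, smul_eq_mul, abs_mul, abs_inv, hay]
    have hb := integral_diff_bound m N hmN (x - a * 1) (x - a * 0)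
    have hb2 : (1/3) * (1/(4:ℝ)^m - 1/(4:ℝ)^N) ≤ (1/3) * y := by
      have : 0 < 1/(4:ℝ)^N := by positivity
      linarith
    calc y⁻¹ * |∫ t in (x - a * 1)..(x - a * 0), (u N t - u m t)| ≤ y⁻¹ * ((1/3) * y) := by
          gcongr
          exact hb.trans hb2
      _ = 1/3 := by field_simp
  have e3 : |kap m y x - kap m (-y) x| ≤ 18 := by
    unfold kap
    rw [← intervalIntegral.integral_sub (u_comp_ii m x y) (u_comp_ii m x (-y))]
    have hb : ∀ s ∈ Set.uIoc (0:ℝ) 1, ‖u m (x - s * y) - u m (x - s * (-y))‖ ≤ 18 := by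
      intro s hs
      rw [uIoc_of_le (by norm_num)] at hs
      rw [Real.norm_eq_abs]
      refine (u_diff m _ _).trans ?_
      have e : x - s * y - (x - s * (-y)) = -(2 * (s * y)) := by ring
      rw [e, abs_neg, abs_of_nonneg (by have := hs.1; positivity)]
      have h3 : s * y ≤ y := by
        have := hs.2
        nlinarith
      have h4 : (4:ℝ)^m * (2 * (s * y)) ≤ (4:ℝ)^m * (2 * y) := by gcongr
      nlinarith
    have := intervalIntegral.norm_integral_le_of_norm_le_const hb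
    simpa using this
  rw [e1 y, e1 (-y)]
  have f1 := e2 y hy.ne' (abs_of_pos hy)
  have f2 := e2 (-y) (neg_ne_zero.2 hy.ne') (by rw [abs_neg, abs_of_pos hy])
  rw [abs_le] at *
  constructor <;> linarith [f1.1, f1.2, f2.1, f2.2, e3.1, e3.2]

lemma kap_nonneg (N : ℕ) (a x : ℝ) : 0 ≤ kap N a x := by
  unfold kap
  apply intervalIntegral.integral_nonneg (by norm_num)
  intro s _; exact u_nonneg N _

lemma kap_sum_bound (N : ℕ) (x y : ℝ) (h1 : 1 ≤ y) :
    kap N y x + kap N (-y) x ≤ 3 := by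
  have hy : 0 < y := by linarith
  rw [kap_eq N y x hy.ne', kap_eq N (-y) x (by linarith)]
  have e1 : (-y)⁻¹ * ∫ t in (x - (-y))..x, u N t = y⁻¹ * ∫ t in x..(x + y), u N t := by
    rw [intervalIntegral.integral_symm, sub_neg_eq_add, inv_neg]; ring
  rw [e1, ← mul_add, intervalIntegral.integral_add_adjacent_intervals
    (u_intervalIntegrable N _ _) (u_intervalIntegrable N _ _)]
  have h3 : ∫ t in (x-y)..(x+y), u N t = (∫ t in (x-y)..(x+y), (u N t - u 0 t)) +
      ∫ t in (x-y)..(x+y), u 0 t := by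
    rw [← intervalIntegral.integral_add]
    · congr 1; funext t; ring
    · exact (u_intervalIntegrable N _ _).sub (u_intervalIntegrable 0 _ _)
    · exact u_intervalIntegrable 0 _ _
  have h4 : ∫ t in (x-y)..(x+y), u 0 t ≤ ∫ t in (x-y)..(x+y), (1:ℝ) := by
    apply intervalIntegral.integral_mono_on (by linarith) (u_intervalIntegrable 0 _ _)
      intervalIntegrable_const
    intro t _
    have := u_le 0 t
    simpa using this
  have h5 : ∫ t in (x-y)..(x+y), (1:ℝ) = 2 * y := by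
    simp; ring
  have h6 := integral_diff_bound 0 N (Nat.zero_le N) (x-y) (x+y)
  have h7 := (abs_le.1 h6).2
  have h8 : (1/3) * (1/(4:ℝ)^0 - 1/(4:ℝ)^N) ≤ 1/3 := by
    have : 0 < 1/(4:ℝ)^N := by positivity
    have h9 : (1:ℝ)/(4:ℝ)^0 = 1 := by norm_num
    rw [h9]
    linarith
  have h9 : ∫ t in (x-y)..(x+y), u N t ≤ 3 * y := by linarith
  calc y⁻¹ * ∫ t in (x-y)..(x+y), u N t ≤ y⁻¹ * (3 * y) := by gcongr
    _ = 3 := by field_simp

lemma kap_supp (N : ℕ) (a x y : ℝ) (ha : |a| ≤ y) (h1 : 1 / (4:ℝ)^N ≤ y)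
    (h : kap N a x ≠ 0) : Metric.infDist x E ≤ 2 * y := by
  by_contra hcon
  push Not at hcon
  apply h
  unfold kap
  have : ∀ s ∈ Set.uIcc (0:ℝ) 1, u N (x - s * a) = 0 := by
    intro s hs
    rw [uIcc_of_le (by norm_num)] at hs
    by_contra hne
    have h2 := infDist_u N _ hne
    have h3 : Metric.infDist x E ≤ Metric.infDist (x - s * a) E + dist x (x - s * a) :=
      Metric.infDist_le_infDist_add_dist
    have h4 : dist x (x - s * a) ≤ y := by
      rw [Real.dist_eq]
      have : x - (x - s * a) = s * a := by ring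
      rw [this, abs_mul, abs_of_nonneg hs.1]
      calc s * |a| ≤ 1 * |a| := by gcongr; exact hs.2
        _ ≤ y := by linarith
    linarith
  rw [intervalIntegral.integral_congr this]
  simp

lemma mass_lower (N : ℕ) : 2/3 ≤ ∫ t in (0:ℝ)..1, u N t := by
  have h3 : ∫ t in (0:ℝ)..1, u N t = (∫ t in (0:ℝ)..1, (u N t - u 0 t)) +
      ∫ t in (0:ℝ)..1, u 0 t := by
    rw [← intervalIntegral.integral_add]
    · congr 1; funext t; ring
    · exact (u_intervalIntegrable N _ _).sub (u_intervalIntegrable 0 _ _)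
    · exact u_intervalIntegrable 0 _ _
  have h4 : ∫ t in (0:ℝ)..1, u 0 t = 1 := by
    have : ∫ t in (0:ℝ)..1, u 0 t = ∫ t in (0:ℝ)..1, (1:ℝ) := by
      rw [intervalIntegral.integral_of_le (by norm_num), intervalIntegral.integral_of_le (by norm_num),
        ← integral_Ico_eq_integral_Ioc, ← integral_Ico_eq_integral_Ioc]
      apply setIntegral_congr_fun measurableSet_Ico
      intro t ht
      have hf : ⌊t⌋ = 0 := by rw [Int.floor_eq_iff]; simpa using ht
      simp [u, hf, S]
    rw [this]; simp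
  have h6 := integral_diff_bound 0 N (Nat.zero_le N) 0 1
  have h7 := (abs_le.1 h6).1
  have h8 : (1/3) * (1/(4:ℝ)^0 - 1/(4:ℝ)^N) ≤ 1/3 := by
    have : 0 < 1/(4:ℝ)^N := by positivity
    have h9 : (1:ℝ)/(4:ℝ)^0 = 1 := by norm_num
    rw [h9]
    linarith
  rw [h3, h4]
  linarith

end Pool.Agent.W34023b
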