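import Mathlib
import Pool.Agent.W34023b.D

set_option autoImplicit false
open MeasureTheory Set Filter Topology

namespace Pool.Agent.W34023b

/-- the unit box -/
def box : Set (ℝ × ℝ) := Icc 0 1 ×ˢ Icc 0 1

lemma box_compact : IsCompact box := isCompact_Icc.prod isCompact_Icc

variable {F : Type*} [NormedAddCommGroup F] [NormedSpace ℝ F]

lemma box_integrable (N : ℕ) (g : ℝ × ℝ → F) (hg : Continuous g) :
    IntegrableOn (fun w => u N w.2 • g w) box := by
  have h1 : IntegrableOn g box := hg.continuousOn.integrableOn_compact box_compact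
  refine Integrable.bdd_smul h1 (N + 1) ?_ ?_
  · exact ((u_meas N).comp measurable_snd).aestronglyMeasurable
  · refine Filter.Eventually.of_forall fun w => ?_
    rw [Real.norm_eq_abs, abs_of_nonneg (u_nonneg N _)]
    exact u_le N _

lemma strip_integrable (N : ℕ) (a : ℝ) (g : ℝ → F) (hg : Continuous g) :
    Integrable (Function.uncurry fun s x : ℝ => u N (x - s * a) • g x)
      ((volume.restrict (Icc (0:ℝ) 1)).prod volume) := by
  obtain ⟨M, hM⟩ := (isCompact_Icc (a := -|a|) (b := 1 + |a|)).exists_bound_of_continuousOn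
    hg.continuousOn
  have hM0 : 0 ≤ M := (norm_nonneg _).trans (hM 0 ⟨by simp, by positivity⟩)
  have hdom : Integrable (fun x : ℝ => (Icc (-|a|) (1 + |a|)).indicator
      (fun _ => ((N:ℝ) + 1) * M) x) volume := by
    rw [integrable_indicator_iff measurableSet_Icc]
    exact (integrableOn_const (by simp))
  have hdom2 := hdom.comp_snd (volume.restrict (Icc (0:ℝ) 1))
  refine hdom2.mono' ?_ ?_
  · refine AEStronglyMeasurable.smul ?_ ?_
    · apply Measurable.aestronglyMeasurable
      exact (u_meas N).comp (by fun_prop)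
    · exact (hg.comp continuous_snd).aestronglyMeasurable
  · have : ∀ᵐ p : ℝ × ℝ ∂((volume.restrict (Icc (0:ℝ) 1)).prod volume), p.1 ∈ Icc (0:ℝ) 1 := by
      have h := (ae_restrict_mem (μ := volume) (measurableSet_Icc (a := (0:ℝ)) (b := 1)))
      exact Measure.quasiMeasurePreserving_fst.ae h
    filter_upwards [this] with p hp
    simp only [Function.uncurry]
    rw [norm_smul, Real.norm_eq_abs, abs_of_nonneg (u_nonneg N _)]
    by_cases hx : p.2 ∈ Icc (-|a|) (1 + |a|)
    · rw [indicator_of_mem hx]
      have h1 := u_le N (p.2 - p.1 * a)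
      have h2 := hM _ hx
      have h3 := u_nonneg N (p.2 - p.1 * a)
      have h4 := norm_nonneg (g p.2)
      gcongr
    · rw [indicator_of_notMem hx]
      have h0 : u N (p.2 - p.1 * a) = 0 := by
        by_contra hne
        have h1 := u_supp N _ hne
        apply hx
        have h2 : |p.1 * a| ≤ |a| := by
          rw [abs_mul, abs_of_nonneg hp.1]
          have := hp.2
          have := abs_nonneg a
          nlinarith
        have h3 := abs_le.1 h2
        constructor <;> linarith [h3.1, h3.2, h1.1, h1.2]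
      rw [h0, zero_mul]

lemma box_kernel [CompleteSpace F] (N : ℕ) (a : ℝ) (g : ℝ → F) (hg : Continuous g) :
    ∫ w in box, u N w.2 • g (w.2 + w.1 * a) = ∫ x, kap N a x • g x := by
  have h1 := box_integrable N (fun w : ℝ × ℝ => g (w.2 + w.1 * a)) (by fun_prop)
  unfold box at h1 ⊢
  rw [Measure.volume_eq_prod] at *
  rw [setIntegral_prod _ h1]
  have h2 : ∀ s : ℝ, ∫ t in Icc (0:ℝ) 1, u N t • g (t + s * a) =
      ∫ x, u N (x - s * a) • g x := by
    intro s
    rw [setIntegral_eq_integral_of_forall_compl_eq_zero]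
    · rw [← integral_sub_right_eq_self (fun t => u N t • g (t + s * a)) (s * a)]
      simp
    · intro t ht
      have : u N t = 0 := by
        by_contra hne
        have := u_supp N t hne
        exact ht ⟨this.1, this.2.le⟩
      rw [this, zero_smul]
  simp only [h2]
  rw [integral_integral_swap (strip_integrable N a g hg)]
  congr 1
  funext x
  rw [integral_smul_const]
  congr 1
  unfold kap
  rw [intervalIntegral.integral_of_le (by norm_num), integral_Icc_eq_integral_Ioc]

lemma kap_supp' (N : ℕ) (a : ℝ) (x : ℝ) (h : kap N a x ≠ 0) : x ∈ Icc (-|a|) (1 + |a|) := by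
  by_contra hx
  apply h
  unfold kap
  have : ∀ s ∈ Set.uIcc (0:ℝ) 1, u N (x - s * a) = 0 := by
    intro s hs
    rw [uIcc_of_le (by norm_num)] at hs
    by_contra hne
    have h1 := u_supp N _ hne
    apply hx
    have h2 : |s * a| ≤ |a| := by
      rw [abs_mul, abs_of_nonneg hs.1]
      have := hs.2
      have := abs_nonneg a
      nlinarith
    have h3 := abs_le.1 h2
    constructor <;> linarith [h3.1, h3.2, h1.1, h1.2]
  rw [intervalIntegral.integral_congr this]
  simp

lemma kap_integrable [CompleteSpace F] (N : ℕ) (a : ℝ) (g : ℝ → F) (hg : Continuous g) :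
    Integrable (fun x => kap N a x • g x) := by
  have h := (strip_integrable N a g hg).integral_prod_right
  refine h.congr (Filter.Eventually.of_forall fun x => ?_)
  simp only [Function.uncurry]
  rw [integral_smul_const]
  congr 1
  unfold kap
  rw [intervalIntegral.integral_of_le (by norm_num), integral_Icc_eq_integral_Ioc]

/-- the horizontal section of the compact set -/
def Ky (y : ℝ) : Set ℝ := {x | Metric.infDist x E ≤ 2 * y}

lemma Ky_closed (y : ℝ) : IsClosed (Ky y) :=
  isClosed_le (Metric.continuous_infDist_pt E) continuous_const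

lemma Ky_bdd (y : ℝ) : Ky y ⊆ Icc (-(2*y)) (1 + 2*y) := by
  intro x hx
  have hx' : Metric.infDist x E ≤ 2 * y := hx
  obtain ⟨e, he, hd⟩ := E_closed.exists_infDist_eq_dist E_nonempty x
  rw [hd, Real.dist_eq] at hx'
  have h1 := E_sub_Icc he
  have h2 := abs_le.1 hx'
  constructor <;> linarith [h1.1, h1.2, h2.1, h2.2]

lemma Ky_compact (y : ℝ) : IsCompact (Ky y) :=
  isCompact_Icc.of_isClosed_subset (Ky_closed y) (Ky_bdd y)

lemma diff_kernel_bound [CompleteSpace F] (N : ℕ) (y : ℝ) (h1 : 1 / (4:ℝ)^N ≤ y) (h2 : y ≤ 2)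
    (g : ℝ → F) (hg : Continuous g) :
    ‖∫ w in box, u N w.2 • (g (w.2 + w.1 * y) - g (w.2 - w.1 * y))‖ ≤
      19 * ∫ x in Ky y, ‖g x‖ := by
  have hy : 0 < y := lt_of_lt_of_le (by positivity) h1
  have e1 : ∫ w in box, u N w.2 • (g (w.2 + w.1 * y) - g (w.2 - w.1 * y)) =
      ∫ x, (kap N y x - kap N (-y) x) • g x := by
    have i1 := box_integrable N (fun w : ℝ × ℝ => g (w.2 + w.1 * y)) (by fun_prop)
    have i2 := box_integrable N (fun w : ℝ × ℝ => g (w.2 + w.1 * (-y))) (by fun_prop)
    have e2 : ∀ w : ℝ × ℝ, u N w.2 • (g (w.2 + w.1 * y) - g (w.2 - w.1 * y)) =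
        u N w.2 • g (w.2 + w.1 * y) - u N w.2 • g (w.2 + w.1 * (-y)) := by
      intro w; rw [smul_sub]; congr 3; ring
    simp only [e2]
    rw [integral_sub i1 i2, box_kernel N y g hg, box_kernel N (-y) g hg,
      ← integral_sub (kap_integrable N y g hg) (kap_integrable N (-y) g hg)]
    simp only [sub_smul]
  rw [e1]
  have e3 : ∫ x, (kap N y x - kap N (-y) x) • g x =
      ∫ x in Ky y, (kap N y x - kap N (-y) x) • g x := by
    symm
    apply setIntegral_eq_integral_of_forall_compl_eq_zero
    intro x hx
    have a1 : kap N y x = 0 := by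
      by_contra hne
      exact hx (kap_supp N y x y (by rw [abs_of_pos hy]) h1 hne)
    have a2 : kap N (-y) x = 0 := by
      by_contra hne
      exact hx (kap_supp N (-y) x y (by rw [abs_neg, abs_of_pos hy]) h1 hne)
    rw [a1, a2]; simp
  rw [e3, ← integral_const_mul]
  apply norm_integral_le_of_norm_le
  · exact (hg.norm.continuousOn.integrableOn_compact (Ky_compact y)).const_mul 19
  · refine Filter.Eventually.of_forall fun x => ?_
    rw [norm_smul, Real.norm_eq_abs]
    gcongr
    exact kap_diff_bound N x y h1 h2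

lemma sum_kernel_bound (N : ℕ) (y : ℝ) (h1 : 1 ≤ y)
    (g : ℝ → ℝ) (hg : Continuous g) (hg0 : ∀ x, 0 ≤ g x) :
    ∫ w in box, u N w.2 • (g (w.2 + w.1 * y) + g (w.2 - w.1 * y)) ≤
      3 * ∫ x in Ky y, g x := by
  have hy : 0 < y := by linarith
  have h1' : 1 / (4:ℝ)^N ≤ y := by
    refine le_trans ?_ h1
    rw [div_le_one (by positivity)]
    exact one_le_pow₀ (by norm_num)
  have e1 : ∫ w in box, u N w.2 • (g (w.2 + w.1 * y) + g (w.2 - w.1 * y)) =
      ∫ x, (kap N y x + kap N (-y) x) • g x := by
    have i1 := box_integrable N (fun w : ℝ × ℝ => g (w.2 + w.1 * y)) (by fun_prop)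
    have i2 := box_integrable N (fun w : ℝ × ℝ => g (w.2 + w.1 * (-y))) (by fun_prop)
    have e2 : ∀ w : ℝ × ℝ, u N w.2 • (g (w.2 + w.1 * y) + g (w.2 - w.1 * y)) =
        u N w.2 • g (w.2 + w.1 * y) + u N w.2 • g (w.2 + w.1 * (-y)) := by
      intro w; rw [smul_add]; congr 3; ring
    simp only [e2]
    rw [integral_add i1 i2, box_kernel N y g hg, box_kernel N (-y) g hg,
      ← integral_add (kap_integrable N y g hg) (kap_integrable N (-y) g hg)]
    simp only [add_smul]
  rw [e1]
  have e3 : ∫ x, (kap N y x + kap N (-y) x) • g x =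
      ∫ x in Ky y, (kap N y x + kap N (-y) x) • g x := by
    symm
    apply setIntegral_eq_integral_of_forall_compl_eq_zero
    intro x hx
    have a1 : kap N y x = 0 := by
      by_contra hne
      exact hx (kap_supp N y x y (by rw [abs_of_pos hy]) h1' hne)
    have a2 : kap N (-y) x = 0 := by
      by_contra hne
      exact hx (kap_supp N (-y) x y (by rw [abs_neg, abs_of_pos hy]) h1' hne)
    rw [a1, a2]; simp
  rw [e3, ← integral_const_mul]
  have i3 : Integrable (fun x => (kap N y x + kap N (-y) x) • g x) := by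
    have := (kap_integrable N y g hg).add (kap_integrable N (-y) g hg)
    refine this.congr (Filter.Eventually.of_forall fun x => ?_)
    simp
    ring
  apply integral_mono i3.integrableOn
    ((hg.continuousOn.integrableOn_compact (Ky_compact y)).const_mul 3)
  intro x
  simp only [smul_eq_mul]
  have := kap_sum_bound N x y h1
  have := hg0 x
  gcongr

end Pool.Agent.W34023b
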