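import Mathlib
import Pool.Agent.W34023b.F

set_option autoImplicit false
open MeasureTheory Set Filter Topology

namespace Pool.Agent.W34023b

/-- the kernel function, `w = (s,t)` -/
noncomputable def Th (lam : ℂ) (h : ℝ × ℝ → ℂ) (w : ℝ × ℝ) (y : ℝ) : ℂ :=
  h (w.2 + w.1 * y, y) / (w.1 + lam) + h (w.2 - w.1 * y, y) / (w.1 - lam)

noncomputable def LL (lam : ℂ) (h : ℝ × ℝ → ℂ) (N : ℕ) (y : ℝ) : ℂ :=
  ∫ w in box, u N w.2 • Th lam h w y

lemma den_ne {lam : ℂ} (hl : lam = Complex.I ∨ lam = -Complex.I) (s : ℝ) :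
    (s : ℂ) + lam ≠ 0 ∧ (s : ℂ) - lam ≠ 0 := by
  have key : ∀ z : ℂ, z = Complex.I ∨ z = -Complex.I → (s : ℂ) + z ≠ 0 := by
    rintro z (rfl | rfl) h0
    · have := congrArg Complex.im h0
      simp at this
    · have := congrArg Complex.im h0
      simp at this
  refine ⟨key lam hl, ?_⟩
  rw [sub_eq_add_neg]
  apply key
  rcases hl with rfl | rfl
  · right; rfl
  · left; simp

lemma den_norm {lam : ℂ} (hl : lam = Complex.I ∨ lam = -Complex.I) (s : ℝ) :
    1 ≤ ‖(s : ℂ) + lam‖ ∧ 1 ≤ ‖(s : ℂ) - lam‖ := by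
  have key : ∀ z : ℂ, z = Complex.I ∨ z = -Complex.I → 1 ≤ ‖(s : ℂ) + z‖ := by
    rintro z (rfl | rfl)
    · have := Complex.abs_im_le_norm ((s : ℂ) + Complex.I)
      simpa using this
    · have := Complex.abs_im_le_norm ((s : ℂ) + -Complex.I)
      simpa using this
  refine ⟨key lam hl, ?_⟩
  rw [sub_eq_add_neg]
  apply key
  rcases hl with rfl | rfl
  · right; rfl
  · left; simp

lemma Th_cont {lam : ℂ} (hl : lam = Complex.I ∨ lam = -Complex.I) (h : ℝ × ℝ → ℂ)
    (hh : Continuous h) (y : ℝ) : Continuous (fun w => Th lam h w y) := by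
  unfold Th
  apply Continuous.add
  · apply Continuous.div
    · fun_prop
    · fun_prop
    · intro w; exact (den_ne hl w.1).1
  · apply Continuous.div
    · fun_prop
    · fun_prop
    · intro w; exact (den_ne hl w.1).2

lemma Th_diff {lam : ℂ} (hl : lam = Complex.I ∨ lam = -Complex.I) (h : ℝ × ℝ → ℂ)
    (hh : ContDiff ℝ 1 h) (w : ℝ × ℝ) (y₁ y₂ : ℝ) (hy : y₁ ≤ y₂)
    (H1 : ∀ y ∈ Icc y₁ y₂, fderiv ℝ h (w.2 + w.1 * y, y) (0, 1) =
      lam * fderiv ℝ h (w.2 + w.1 * y, y) (1, 0))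
    (H2 : ∀ y ∈ Icc y₁ y₂, fderiv ℝ h (w.2 - w.1 * y, y) (0, 1) =
      lam * fderiv ℝ h (w.2 - w.1 * y, y) (1, 0)) :
    Th lam h w y₂ - Th lam h w y₁ = ∫ y in y₁..y₂,
      (fderiv ℝ h (w.2 + w.1 * y, y) (1, 0) - fderiv ℝ h (w.2 - w.1 * y, y) (1, 0)) := by
  have hd : Differentiable ℝ h := hh.differentiable (by norm_num)
  have hc : Continuous (fderiv ℝ h) := hh.continuous_fderiv (by norm_num)
  symm
  apply intervalIntegral.integral_eq_sub_of_hasDerivAt
  · intro y hy'
    rw [uIcc_of_le hy] at hy'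
    have d1 : HasDerivAt (fun y : ℝ => (w.2 + w.1 * y, y)) (w.1, 1) y := by
      have a1 : HasDerivAt (fun y : ℝ => w.2 + w.1 * y) w.1 y := by
        simpa using ((hasDerivAt_id y).const_mul w.1).const_add w.2
      exact a1.prodMk (hasDerivAt_id y)
    have d2 : HasDerivAt (fun y : ℝ => (w.2 - w.1 * y, y)) (-w.1, 1) y := by
      have a1 : HasDerivAt (fun y : ℝ => w.2 - w.1 * y) (-w.1) y := by
        simpa using ((hasDerivAt_id y).const_mul w.1).const_sub w.2
      exact a1.prodMk (hasDerivAt_id y)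
    have f1 : HasDerivAt (fun y : ℝ => h (w.2 + w.1 * y, y))
        (fderiv ℝ h (w.2 + w.1 * y, y) (w.1, 1)) y :=
      HasFDerivAt.comp_hasDerivAt (f := fun y : ℝ => (w.2 + w.1 * y, y)) y
        (hd (w.2 + w.1 * y, y)).hasFDerivAt d1
    have f2 : HasDerivAt (fun y : ℝ => h (w.2 - w.1 * y, y))
        (fderiv ℝ h (w.2 - w.1 * y, y) (-w.1, 1)) y :=
      HasFDerivAt.comp_hasDerivAt (f := fun y : ℝ => (w.2 - w.1 * y, y)) y
        (hd (w.2 - w.1 * y, y)).hasFDerivAt d2
    have g1 : fderiv ℝ h (w.2 + w.1 * y, y) (w.1, 1) =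
        (w.1 + lam) * fderiv ℝ h (w.2 + w.1 * y, y) (1, 0) := by
      have : ((w.1, 1) : ℝ × ℝ) = w.1 • ((1, 0) : ℝ × ℝ) + (0, 1) := by simp
      rw [this, map_add, map_smul, H1 y hy', Complex.real_smul]; ring
    have g2 : fderiv ℝ h (w.2 - w.1 * y, y) (-w.1, 1) =
        -(w.1 - lam) * fderiv ℝ h (w.2 - w.1 * y, y) (1, 0) := by
      have : ((-w.1, 1) : ℝ × ℝ) = (-w.1) • ((1, 0) : ℝ × ℝ) + (0, 1) := by simp
      rw [this, map_add, map_smul, H2 y hy', Complex.real_smul]; push_cast; ring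
    have k := (f1.div_const ((w.1 : ℂ) + lam)).add (f2.div_const ((w.1 : ℂ) - lam))
    refine k.congr_deriv ?_
    rw [g1, g2]
    have n1 := (den_ne hl w.1).1
    have n2 := (den_ne hl w.1).2
    field_simp
    ring
  · apply Continuous.intervalIntegrable
    fun_prop

/-- The upper part of the compact set. -/
def Kp : Set (ℝ × ℝ) := {p | 0 ≤ p.2 ∧ p.2 ≤ 2 ∧ Metric.infDist p.1 E ≤ 2 * p.2}

lemma Kp_closed : IsClosed Kp := by
  have h1 : IsClosed {p : ℝ × ℝ | 0 ≤ p.2} := isClosed_le continuous_const continuous_snd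
  have h2 : IsClosed {p : ℝ × ℝ | p.2 ≤ 2} := isClosed_le continuous_snd continuous_const
  have h3 : IsClosed {p : ℝ × ℝ | Metric.infDist p.1 E ≤ 2 * p.2} :=
    isClosed_le ((Metric.continuous_infDist_pt E).comp continuous_fst) (by fun_prop)
  exact h1.inter (h2.inter h3)

lemma Kp_sub : Kp ⊆ Icc (-4) 5 ×ˢ Icc 0 2 := by
  rintro ⟨x, y⟩ ⟨h1, h2, h3⟩
  have := Ky_bdd y h3
  simp only at h1 h2 h3
  refine ⟨⟨?_, ?_⟩, ⟨h1, h2⟩⟩
  · simp only; linarith [this.1]
  · simp only; linarith [this.2]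

lemma Kp_compact : IsCompact Kp :=
  (isCompact_Icc.prod isCompact_Icc).of_isClosed_subset Kp_closed Kp_sub

/-- Fubini on `Kp`. -/
lemma Kp_fubini (g : ℝ × ℝ → ℝ) (hg : Continuous g) :
    ∫ p in Kp, g p = ∫ y in Icc (0:ℝ) 2, ∫ x in Ky y, g (x, y) := by
  have h1 : IntegrableOn g Kp := hg.continuousOn.integrableOn_compact Kp_compact
  rw [← integral_indicator Kp_closed.measurableSet]
  have h2 : Integrable (Kp.indicator g) := by
    rw [integrable_indicator_iff Kp_closed.measurableSet]; exact h1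
  rw [Measure.volume_eq_prod] at *
  rw [integral_prod_symm _ h2]
  rw [← integral_indicator measurableSet_Icc]
  congr 1
  funext y
  by_cases hy : y ∈ Icc (0:ℝ) 2
  · rw [indicator_of_mem hy, ← integral_indicator (Ky_closed y).measurableSet]
    congr 1
    funext x
    by_cases hx : x ∈ Ky y
    · rw [indicator_of_mem hx, indicator_of_mem]
      exact ⟨hy.1, hy.2, hx⟩
    · rw [indicator_of_notMem hx, indicator_of_notMem]
      intro hp; exact hx hp.2.2
  · rw [indicator_of_notMem hy]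
    rw [← integral_zero ℝ ℝ]
    congr 1
    funext x
    rw [indicator_of_notMem]
    intro hp; exact hy ⟨hp.1, hp.2.1⟩

lemma Kp_section_integrable (g : ℝ × ℝ → ℝ) (hg : Continuous g) :
    IntegrableOn (fun y => ∫ x in Ky y, g (x, y)) (Icc (0:ℝ) 2) := by
  have h1 : IntegrableOn g Kp := hg.continuousOn.integrableOn_compact Kp_compact
  have h2 : Integrable (Kp.indicator g) := by
    rw [integrable_indicator_iff Kp_closed.measurableSet]; exact h1
  rw [Measure.volume_eq_prod] at *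
  have h3 := h2.integral_prod_right
  refine (h3.integrableOn (s := Icc (0:ℝ) 2)).congr_fun ?_ measurableSet_Icc
  intro y hy
  simp only
  rw [← integral_indicator (Ky_closed y).measurableSet]
  congr 1
  funext x
  by_cases hx : x ∈ Ky y
  · rw [indicator_of_mem hx, indicator_of_mem]
    exact ⟨hy.1, hy.2, hx⟩
  · rw [indicator_of_notMem hx, indicator_of_notMem]
    intro hp; exact hx hp.2.2

lemma LL_diff {lam : ℂ} (hl : lam = Complex.I ∨ lam = -Complex.I) (h : ℝ × ℝ → ℂ)
    (hh : ContDiff ℝ 1 h) (N : ℕ)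
    (HK : ∀ p ∈ Kp, fderiv ℝ h p (0, 1) = lam * fderiv ℝ h p (1, 0))
    (y₂ : ℝ) (h1 : 1 ≤ y₂) (h2 : y₂ ≤ 2) :
    ‖LL lam h N y₂ - LL lam h N (1 / (4:ℝ)^N)‖ ≤ 19 * ∫ p in Kp, ‖fderiv ℝ h p (1, 0)‖ := by
  set δ : ℝ := 1 / (4:ℝ)^N with hδ
  have hδ0 : 0 < δ := by positivity
  have hδ1 : δ ≤ 1 := by
    rw [hδ, div_le_one (by positivity)]
    exact one_le_pow₀ (by norm_num)
  have hd : Differentiable ℝ h := hh.differentiable (by norm_num)
  have hc : Continuous (fderiv ℝ h) := hh.continuous_fderiv (by norm_num)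
  have hcG : Continuous (fun p => fderiv ℝ h p (1, 0)) := by fun_prop
  -- step 1
  have e1 : LL lam h N y₂ - LL lam h N δ = ∫ w in box, ∫ y in Icc δ y₂, u N w.2 •
      (fderiv ℝ h (w.2 + w.1 * y, y) (1, 0) - fderiv ℝ h (w.2 - w.1 * y, y) (1, 0)) := by
    unfold LL
    rw [← integral_sub (box_integrable N _ (Th_cont hl h hh.continuous y₂))
      (box_integrable N _ (Th_cont hl h hh.continuous δ))]
    apply setIntegral_congr_fun (box_compact.measurableSet)
    intro w hw
    simp only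
    rw [← smul_sub, integral_smul]
    by_cases hu : u N w.2 = 0
    · rw [hu, zero_smul, zero_smul]
    · congr 1
      have hin := infDist_u N w.2 hu
      have hw1 : w.1 ∈ Icc (0:ℝ) 1 := hw.1
      rw [Th_diff hl h hh w δ y₂ (by linarith), intervalIntegral.integral_of_le (by linarith),
        integral_Icc_eq_integral_Ioc]
      · intro y hy
        apply HK
        refine ⟨by simp only; linarith [hy.1], by simp only; linarith [hy.2], ?_⟩
        simp only
        have h3 : Metric.infDist (w.2 + w.1 * y) E ≤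
            Metric.infDist w.2 E + dist (w.2 + w.1 * y) w.2 := Metric.infDist_le_infDist_add_dist
        have h4 : dist (w.2 + w.1 * y) w.2 ≤ y := by
          rw [Real.dist_eq]
          have e : w.2 + w.1 * y - w.2 = w.1 * y := by ring
          have hy0 : 0 < y := by linarith [hy.1]
          rw [e, abs_of_nonneg (mul_nonneg hw1.1 hy0.le)]
          nlinarith [hw1.2]
        linarith [hy.1]
      · intro y hy
        apply HK
        refine ⟨by simp only; linarith [hy.1], by simp only; linarith [hy.2], ?_⟩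
        simp only
        have h3 : Metric.infDist (w.2 - w.1 * y) E ≤
            Metric.infDist w.2 E + dist (w.2 - w.1 * y) w.2 := Metric.infDist_le_infDist_add_dist
        have h4 : dist (w.2 - w.1 * y) w.2 ≤ y := by
          rw [Real.dist_eq]
          have e : w.2 - w.1 * y - w.2 = -(w.1 * y) := by ring
          have hy0 : 0 < y := by linarith [hy.1]
          rw [e, abs_neg, abs_of_nonneg (mul_nonneg hw1.1 hy0.le)]
          nlinarith [hw1.2]
        linarith [hy.1]
  -- step 2: swap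
  have hint : Integrable (Function.uncurry fun (w : ℝ × ℝ) (y : ℝ) => u N w.2 •
      (fderiv ℝ h (w.2 + w.1 * y, y) (1, 0) - fderiv ℝ h (w.2 - w.1 * y, y) (1, 0)))
      ((volume.restrict box).prod (volume.restrict (Icc δ y₂))) := by
    rw [Measure.prod_restrict]
    have hcont : Continuous (fun q : (ℝ × ℝ) × ℝ =>
      (fderiv ℝ h (q.1.2 + q.1.1 * q.2, q.2) (1, 0) -
        fderiv ℝ h (q.1.2 - q.1.1 * q.2, q.2) (1, 0))) := by fun_prop
    have hi := hcont.continuousOn.integrableOn_compact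
      (μ := (volume : Measure (ℝ × ℝ)).prod (volume : Measure ℝ))
      (box_compact.prod (isCompact_Icc (a := δ) (b := y₂)))
    refine Integrable.bdd_smul hi (φ := fun q : (ℝ × ℝ) × ℝ => u N q.1.2) (N + 1) ?_ ?_
    · exact ((u_meas N).comp (by fun_prop)).aestronglyMeasurable
    · refine Filter.Eventually.of_forall fun w => ?_
      rw [Real.norm_eq_abs, abs_of_nonneg (u_nonneg N _)]
      exact u_le N _
  rw [e1, integral_integral_swap hint]
  have hsec := Kp_section_integrable (fun p => ‖fderiv ℝ h p (1, 0)‖) (by fun_prop)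
  have hsub : Icc δ y₂ ⊆ Icc (0:ℝ) 2 := Icc_subset_Icc hδ0.le h2
  calc ‖∫ y in Icc δ y₂, ∫ w in box, u N w.2 •
        (fderiv ℝ h (w.2 + w.1 * y, y) (1, 0) - fderiv ℝ h (w.2 - w.1 * y, y) (1, 0))‖
      ≤ ∫ y in Icc δ y₂, 19 * ∫ x in Ky y, ‖fderiv ℝ h (x, y) (1, 0)‖ := by
        apply norm_integral_le_of_norm_le
        · exact (hsec.mono_set hsub).const_mul 19
        · filter_upwards [ae_restrict_mem measurableSet_Icc] with y hy
          exact diff_kernel_bound N y hy.1 (hy.2.trans h2) (fun x => fderiv ℝ h (x, y) (1, 0))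
            (by fun_prop)
    _ ≤ ∫ y in Icc (0:ℝ) 2, 19 * ∫ x in Ky y, ‖fderiv ℝ h (x, y) (1, 0)‖ := by
        apply setIntegral_mono_set (hsec.const_mul 19)
        · refine Filter.Eventually.of_forall fun y => ?_
          simp only [Pi.zero_apply]
          have : 0 ≤ ∫ x in Ky y, ‖fderiv ℝ h (x, y) (1, 0)‖ :=
            integral_nonneg fun x => norm_nonneg _
          linarith
        · exact hsub.eventuallyLE
    _ = 19 * ∫ p in Kp, ‖fderiv ℝ h p (1, 0)‖ := by
        rw [Kp_fubini _ (by fun_prop), integral_const_mul]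

end Pool.Agent.W34023b
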