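import Mathlib
import Pool.Agent.W34023b.G

set_option autoImplicit false
open MeasureTheory Set Filter Topology

namespace Pool.Agent.W34023b

lemma mass_upper (N : ℕ) : ∫ t in (0:ℝ)..1, u N t ≤ 4/3 := by
  have h3 : ∫ t in (0:ℝ)..1, u N t = (∫ t in (0:ℝ)..1, (u N t - u 0 t)) +
      ∫ t in (0:ℝ)..1, u 0 t := by
    rw [← intervalIntegral.integral_add]
    · congr 1; funext t; ring
    · exact (u_intervalIntegrable N _ _).sub (u_intervalIntegrable 0 _ _)
    · exact u_intervalIntegrable 0 _ _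
  have h4 : ∫ t in (0:ℝ)..1, u 0 t ≤ ∫ t in (0:ℝ)..1, (1:ℝ) := by
    apply intervalIntegral.integral_mono_on (by norm_num) (u_intervalIntegrable 0 _ _)
      intervalIntegrable_const
    intro t _
    have := u_le 0 t
    simpa using this
  have h6 := integral_diff_bound 0 N (Nat.zero_le N) 0 1
  have h7 := (abs_le.1 h6).2
  have h8 : (1/3) * (1/(4:ℝ)^0 - 1/(4:ℝ)^N) ≤ 1/3 := by
    have : 0 < 1/(4:ℝ)^N := by positivity
    have h9 : (1:ℝ)/(4:ℝ)^0 = 1 := by norm_num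
    rw [h9]
    linarith
  have h9 : ∫ t in (0:ℝ)..1, (1:ℝ) = 1 := by simp
  linarith

lemma box_mass (N : ℕ) (φ : ℝ → ℝ) :
    ∫ w in box, u N w.2 • φ w.1 = (∫ s in Icc (0:ℝ) 1, φ s) * ∫ t in (0:ℝ)..1, u N t := by
  unfold box
  rw [Measure.volume_eq_prod]
  have e : ∀ w : ℝ × ℝ, u N w.2 • φ w.1 = φ w.1 * u N w.2 := by
    intro w; rw [smul_eq_mul, mul_comm]
  simp only [e]
  rw [setIntegral_prod_mul (fun s => φ s) (fun t => u N t)]
  congr 1
  rw [intervalIntegral.integral_of_le (by norm_num), integral_Icc_eq_integral_Ioc]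

/-- the constant produced by constants -/
noncomputable def Qn (N : ℕ) : ℝ := ∫ w in box, u N w.2 • (2 * w.1 / (w.1 ^ 2 + 1))

lemma Qn_lower (N : ℕ) : 1/3 ≤ Qn N := by
  have h1 : ∫ w in box, u N w.2 • w.1 ≤ Qn N := by
    unfold Qn
    have c1 : Continuous (fun w : ℝ × ℝ => w.1) := continuous_fst
    have c2 : Continuous (fun w : ℝ × ℝ => 2 * w.1 / (w.1 ^ 2 + 1)) := by
      apply Continuous.div (by fun_prop) (by fun_prop)
      intro w; positivity
    apply setIntegral_mono_on (box_integrable N _ c1) (box_integrable N _ c2)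
      box_compact.measurableSet
    intro w hw
    have hw1 : w.1 ∈ Icc (0:ℝ) 1 := hw.1
    rw [smul_eq_mul, smul_eq_mul]
    apply mul_le_mul_of_nonneg_left _ (u_nonneg N _)
    rw [le_div_iff₀ (by positivity)]
    nlinarith [hw1.1, hw1.2, mul_nonneg hw1.1 hw1.1]
  have h2 := box_mass N (fun s => s)
  have h3 : ∫ s in Icc (0:ℝ) 1, s = 1/2 := by
    rw [integral_Icc_eq_integral_Ioc, ← intervalIntegral.integral_of_le (by norm_num), integral_id]
    norm_num
  rw [h3] at h2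
  have h4 := mass_lower N
  linarith

lemma lam_sq {lam : ℂ} (hl : lam = Complex.I ∨ lam = -Complex.I) : lam ^ 2 = -1 := by
  rcases hl with rfl | rfl <;> simp

lemma coef_sum {lam : ℂ} (hl : lam = Complex.I ∨ lam = -Complex.I) (s : ℝ) :
    1 / ((s : ℂ) + lam) + 1 / ((s : ℂ) - lam) = ((2 * s / (s ^ 2 + 1) : ℝ) : ℂ) := by
  have n1 := (den_ne hl s).1
  have n2 := (den_ne hl s).2
  have n3 : ((s : ℂ) ^ 2 + 1) ≠ 0 := by
    have : (((s ^ 2 + 1 : ℝ)) : ℂ) ≠ 0 := by
      rw [Complex.ofReal_ne_zero]; positivity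
    push_cast at this
    exact this
  have e : ((s : ℂ) + lam) * ((s : ℂ) - lam) = (s : ℂ) ^ 2 + 1 := by
    have := lam_sq hl
    linear_combination -this
  rw [div_add_div _ _ n1 n2, e]
  push_cast
  congr 1
  ring

lemma LL_top {lam : ℂ} (hl : lam = Complex.I ∨ lam = -Complex.I) (h : ℝ × ℝ → ℂ)
    (hh : Continuous h) (N : ℕ) (c : ℂ) (y : ℝ) (h1 : 1 ≤ y) :
    ‖LL lam h N y - (Qn N : ℂ) * c‖ ≤ 3 * ∫ x in Ky y, ‖h (x, y) - c‖ := by
  have e0 : (Qn N : ℂ) * c = ∫ w in box, u N w.2 • Th lam (fun _ => c) w y := by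
    unfold Qn
    rw [← integral_complex_ofReal, ← integral_mul_const]
    congr 1
    funext w
    unfold Th
    have := coef_sum hl w.1
    rw [div_eq_mul_one_div c, div_eq_mul_one_div c, ← mul_add, this]
    rw [Complex.real_smul]
    simp only [smul_eq_mul]
    push_cast
    ring
  rw [e0]
  unfold LL
  rw [← integral_sub (box_integrable N _ (Th_cont hl h hh y))
    (box_integrable N _ (Th_cont hl (fun _ => c) continuous_const y))]
  refine le_trans ?_ (sum_kernel_bound N y h1 (fun x => ‖h (x, y) - c‖) (by fun_prop)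
    (fun x => norm_nonneg _))
  apply norm_integral_le_of_norm_le
  · exact box_integrable N (fun w : ℝ × ℝ =>
      (‖h (w.2 + w.1 * y, y) - c‖ + ‖h (w.2 - w.1 * y, y) - c‖)) (by fun_prop)
  · refine Filter.Eventually.of_forall fun w => ?_
    rw [← smul_sub, norm_smul, Real.norm_eq_abs, abs_of_nonneg (u_nonneg N _), smul_eq_mul]
    apply mul_le_mul_of_nonneg_left _ (u_nonneg N _)
    unfold Th
    have e1 : h (w.2 + w.1 * y, y) / (w.1 + lam) + h (w.2 - w.1 * y, y) / (w.1 - lam) -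
        (c / (w.1 + lam) + c / (w.1 - lam)) =
        (h (w.2 + w.1 * y, y) - c) / (w.1 + lam) + (h (w.2 - w.1 * y, y) - c) / (w.1 - lam) := by
      ring
    rw [e1]
    refine (norm_add_le _ _).trans ?_
    rw [norm_div, norm_div]
    have d1 := (den_norm hl w.1).1
    have d2 := (den_norm hl w.1).2
    apply add_le_add
    · exact div_le_self (norm_nonneg _) d1
    · exact div_le_self (norm_nonneg _) d2

/-- the common bottom value -/
noncomputable def Bn (h : ℝ × ℝ → ℂ) (N : ℕ) : ℂ :=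
  ∫ w in box, u N w.2 • (((2 * w.1 / (w.1 ^ 2 + 1) : ℝ) : ℂ) * h (w.2, 0))

lemma LL_bottom {lam : ℂ} (hl : lam = Complex.I ∨ lam = -Complex.I) (h : ℝ × ℝ → ℂ)
    (hh : Continuous h) (N : ℕ) (δ ω : ℝ) (hω : 0 ≤ ω)
    (H : ∀ s ∈ Icc (0:ℝ) 1, ∀ t ∈ Icc (0:ℝ) 1, ‖h (t + s * δ, δ) - h (t, 0)‖ ≤ ω ∧
      ‖h (t - s * δ, δ) - h (t, 0)‖ ≤ ω) :
    ‖LL lam h N δ - Bn h N‖ ≤ (8/3) * ω := by
  unfold LL Bn
  have c2 : Continuous (fun w : ℝ × ℝ => (((2 * w.1 / (w.1 ^ 2 + 1) : ℝ) : ℂ) * h (w.2, 0))) := by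
    have c3 : Continuous (fun w : ℝ × ℝ => 2 * w.1 / (w.1 ^ 2 + 1)) := by
      apply Continuous.div (by fun_prop) (by fun_prop)
      intro w; positivity
    have c4 : Continuous (fun w : ℝ × ℝ => h (w.2, 0)) := by fun_prop
    exact (Complex.continuous_ofReal.comp c3).mul c4
  rw [← integral_sub (box_integrable N _ (Th_cont hl h hh δ)) (box_integrable N _ c2)]
  have hm : ∫ w in box, u N w.2 • (2 * ω) = (2 * ω) * ∫ t in (0:ℝ)..1, u N t := by
    have := box_mass N (fun _ => 2 * ω)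
    rw [this]
    simp
  have hm2 : ∫ w in box, u N w.2 • (2 * ω) ≤ (8/3) * ω := by
    rw [hm]
    have := mass_upper N
    nlinarith
  refine le_trans ?_ hm2
  apply norm_integral_le_of_norm_le
  · exact box_integrable N (fun w : ℝ × ℝ => 2 * ω) (by fun_prop)
  · filter_upwards [ae_restrict_mem box_compact.measurableSet] with w hw
    rw [← smul_sub, norm_smul, Real.norm_eq_abs, abs_of_nonneg (u_nonneg N _), smul_eq_mul]
    apply mul_le_mul_of_nonneg_left _ (u_nonneg N _)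
    unfold Th
    rw [← coef_sum hl w.1]
    have e1 : h (w.2 + w.1 * δ, δ) / (w.1 + lam) + h (w.2 - w.1 * δ, δ) / (w.1 - lam) -
        (1 / (w.1 + lam) + 1 / (w.1 - lam)) * h (w.2, 0) =
        (h (w.2 + w.1 * δ, δ) - h (w.2, 0)) / (w.1 + lam) +
          (h (w.2 - w.1 * δ, δ) - h (w.2, 0)) / (w.1 - lam) := by
      ring
    rw [e1]
    refine (norm_add_le _ _).trans ?_
    rw [norm_div, norm_div]
    have d1 := (den_norm hl w.1).1
    have d2 := (den_norm hl w.1).2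
    obtain ⟨a1, a2⟩ := H w.1 hw.1 w.2 hw.2
    have b1 := (div_le_self (norm_nonneg (h (w.2 + w.1 * δ, δ) - h (w.2, 0))) d1).trans a1
    have b2 := (div_le_self (norm_nonneg (h (w.2 - w.1 * δ, δ) - h (w.2, 0))) d2).trans a2
    linarith

lemma one_side {lam : ℂ} (hl : lam = Complex.I ∨ lam = -Complex.I) (h : ℝ × ℝ → ℂ)
    (hh : ContDiff ℝ 1 h) (N : ℕ)
    (HK : ∀ p ∈ Kp, fderiv ℝ h p (0, 1) = lam * fderiv ℝ h p (1, 0)) (c : ℂ) :
    ‖(Qn N : ℂ) * c - LL lam h N (1 / (4:ℝ)^N)‖ ≤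
      3 * (∫ p in Kp, ‖h p - c‖) + 19 * ∫ p in Kp, ‖fderiv ℝ h p (1, 0)‖ := by
  have hc := hh.continuous
  have hp : ∀ y ∈ Icc (1:ℝ) 2, ‖(Qn N : ℂ) * c - LL lam h N (1 / (4:ℝ)^N)‖ ≤
      3 * (∫ x in Ky y, ‖h (x, y) - c‖) + 19 * ∫ p in Kp, ‖fderiv ℝ h p (1, 0)‖ := by
    intro y hy
    have a1 := LL_top hl h hc N c y hy.1
    have a2 := LL_diff hl h hh N HK y hy.1 hy.2
    have e : (Qn N : ℂ) * c - LL lam h N (1 / (4:ℝ)^N) =
        -(LL lam h N y - (Qn N : ℂ) * c) + (LL lam h N y - LL lam h N (1 / (4:ℝ)^N)) := by ring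
    rw [e]
    refine (norm_add_le _ _).trans ?_
    rw [norm_neg]
    exact add_le_add a1 a2
  have hsec := Kp_section_integrable (fun p => ‖h p - c‖) (by fun_prop)
  have hsub : Icc (1:ℝ) 2 ⊆ Icc (0:ℝ) 2 := Icc_subset_Icc (by norm_num) le_rfl
  have hsec1 := hsec.mono_set hsub
  have hvol : (volume.real (Icc (1:ℝ) 2)) = 1 := by
    simp [Measure.real]; norm_num
  have h1 : ∫ y in Icc (1:ℝ) 2, ‖(Qn N : ℂ) * c - LL lam h N (1 / (4:ℝ)^N)‖ ≤
      ∫ y in Icc (1:ℝ) 2, (3 * (∫ x in Ky y, ‖h (x, y) - c‖) +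
        19 * ∫ p in Kp, ‖fderiv ℝ h p (1, 0)‖) := by
    apply setIntegral_mono_on
    · exact integrableOn_const (by simp)
    · exact (hsec1.const_mul 3).add (integrableOn_const (by simp))
    · exact measurableSet_Icc
    · exact hp
  rw [setIntegral_const, hvol, one_smul] at h1
  rw [integral_add (hsec1.const_mul 3) (integrableOn_const (by simp)), setIntegral_const, hvol,
    one_smul, integral_const_mul] at h1
  have h2 : ∫ y in Icc (1:ℝ) 2, (∫ x in Ky y, ‖h (x, y) - c‖) ≤ ∫ p in Kp, ‖h p - c‖ := by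
    rw [Kp_fubini (fun p => ‖h p - c‖) (by fun_prop)]
    apply setIntegral_mono_set hsec
    · refine Filter.Eventually.of_forall fun y => ?_
      simp only [Pi.zero_apply]
      exact integral_nonneg fun x => norm_nonneg _
    · exact hsub.eventuallyLE
  linarith

/-- Main inequality: a function which is holomorphic on the double cone set cannot be close
to `1` on the upper part, `0` on the lower part with small derivative. -/
theorem main_ineq (h : ℝ × ℝ → ℂ) (hh : ContDiff ℝ 1 h)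
    (HK1 : ∀ p ∈ Kp, fderiv ℝ h p (0, 1) = Complex.I * fderiv ℝ h p (1, 0))
    (HK2 : ∀ p ∈ Kp, fderiv ℝ h (p.1, -p.2) (0, 1) =
      Complex.I * fderiv ℝ h (p.1, -p.2) (1, 0)) :
    1/3 ≤ 3 * ((∫ p in Kp, ‖h p - 1‖) + ∫ p in Kp, ‖h (p.1, -p.2)‖) +
      19 * ((∫ p in Kp, ‖fderiv ℝ h p (1, 0)‖) +
        ∫ p in Kp, ‖fderiv ℝ h (p.1, -p.2) (1, 0)‖) := by
  set hm : ℝ × ℝ → ℂ := fun p => h (p.1, -p.2) with hmdef
  have hd : Differentiable ℝ h := hh.differentiable (by norm_num)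
  have hmh : ContDiff ℝ 1 hm := by
    rw [hmdef]
    exact hh.comp (contDiff_fst.prodMk contDiff_snd.neg)
  have hmd : ∀ p v : ℝ × ℝ, fderiv ℝ hm p v = fderiv ℝ h (p.1, -p.2) (v.1, -v.2) := by
    intro p v
    have d1 : HasFDerivAt (fun p : ℝ × ℝ => (p.1, -p.2))
        ((ContinuousLinearMap.fst ℝ ℝ ℝ).prod (-(ContinuousLinearMap.snd ℝ ℝ ℝ))) p :=
      (hasFDerivAt_fst).prodMk (hasFDerivAt_snd.neg)
    have d2 := HasFDerivAt.comp (f := fun p : ℝ × ℝ => (p.1, -p.2)) p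
      (hd (p.1, -p.2)).hasFDerivAt d1
    have d3 : HasFDerivAt hm _ p := d2
    rw [d3.fderiv]
    simp
  have HKm : ∀ p ∈ Kp, fderiv ℝ hm p (0, 1) = (-Complex.I) * fderiv ℝ hm p (1, 0) := by
    intro p hp
    rw [hmd, hmd]
    have h0 := HK2 p hp
    simp only [neg_zero]
    have e : ((0, -1) : ℝ × ℝ) = -(0, 1) := by simp
    rw [e, map_neg, h0]; ring
  have hmd' : ∀ p, fderiv ℝ hm p (1, 0) = fderiv ℝ h (p.1, -p.2) (1, 0) := by
    intro p; rw [hmd]; simp
  -- uniform continuity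
  by_contra hcon
  push Not at hcon
  set R := 3 * ((∫ p in Kp, ‖h p - 1‖) + ∫ p in Kp, ‖hm p‖) +
      19 * ((∫ p in Kp, ‖fderiv ℝ h p (1, 0)‖) +
        ∫ p in Kp, ‖fderiv ℝ h (p.1, -p.2) (1, 0)‖) with hR
  have hgap : 0 < 1/3 - R := by linarith
  set ω := (1/3 - R) / 6 with hω
  have hω0 : 0 < ω := by positivity
  have hcomp : IsCompact (Icc (-1:ℝ) 2 ×ˢ Icc (-1:ℝ) 1) := isCompact_Icc.prod isCompact_Icc
  have huc := hcomp.uniformContinuousOn_of_continuous hh.continuous.continuousOn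
  rw [Metric.uniformContinuousOn_iff] at huc
  obtain ⟨ρ, hρ0, hρ⟩ := huc ω hω0
  obtain ⟨N, hN⟩ := exists_nat_gt (1 / ρ)
  have hN4 : (N:ℝ) < (4:ℝ)^N := by
    have : N < 4^N := Nat.lt_pow_self (by norm_num)
    exact_mod_cast this
  set δ := 1 / (4:ℝ)^N with hδ
  have hδ0 : 0 < δ := by positivity
  have hδρ : δ < ρ := by
    rw [hδ, div_lt_comm₀ (by positivity) hρ0]
    linarith
  have hδ1 : δ ≤ 1 := by
    rw [hδ, div_le_one (by positivity)]
    exact one_le_pow₀ (by norm_num)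
  have Hlow : ∀ σ : ℝ, (σ = 1 ∨ σ = -1) → ∀ s ∈ Icc (0:ℝ) 1, ∀ t ∈ Icc (0:ℝ) 1,
      ‖h (t + s * δ, σ * δ) - h (t, 0)‖ ≤ ω ∧ ‖h (t - s * δ, σ * δ) - h (t, 0)‖ ≤ ω := by
    intro σ hσ s hs t ht
    have hsd : 0 ≤ s * δ ∧ s * δ ≤ δ := by
      constructor
      · exact mul_nonneg hs.1 hδ0.le
      · nlinarith [hs.2]
    have hσδ : |σ * δ| = δ := by
      rcases hσ with rfl | rfl <;> simp [abs_of_pos hδ0]
    have hσ2 : -1 ≤ σ * δ ∧ σ * δ ≤ 1 := by
      rcases hσ with rfl | rfl <;> constructor <;> linarith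
    have key : ∀ τ : ℝ, |τ| ≤ δ → ‖h (t + τ, σ * δ) - h (t, 0)‖ ≤ ω := by
      intro τ hτ
      have hτ' := abs_le.1 hτ
      rw [← dist_eq_norm]
      apply le_of_lt
      apply hρ
      · exact ⟨⟨by simp only; linarith [ht.1], by simp only; linarith [ht.2]⟩, hσ2⟩
      · exact ⟨⟨by simp only; linarith [ht.1], by simp only; linarith [ht.2]⟩,
          ⟨by norm_num, by norm_num⟩⟩
      · rw [Prod.dist_eq, max_lt_iff]
        constructor
        · rw [Real.dist_eq]; simp only [add_sub_cancel_left]; linarith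
        · rw [Real.dist_eq]; simp only [sub_zero]; rw [hσδ]; exact hδρ
    constructor
    · exact key (s * δ) (by rw [abs_of_nonneg hsd.1]; exact hsd.2)
    · have := key (-(s * δ)) (by rw [abs_neg, abs_of_nonneg hsd.1]; exact hsd.2)
      rw [← sub_eq_add_neg] at this
      exact this
  have hI : (Complex.I : ℂ) = Complex.I ∨ Complex.I = -Complex.I := Or.inl rfl
  have hI' : (-Complex.I : ℂ) = Complex.I ∨ -Complex.I = -Complex.I := Or.inr rfl
  have b1 : ‖LL Complex.I h N δ - Bn h N‖ ≤ (8/3) * ω := by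
    apply LL_bottom hI h hh.continuous N δ ω hω0.le
    intro s hs t ht
    have := Hlow 1 (Or.inl rfl) s hs t ht
    simpa using this
  have b2 : ‖LL (-Complex.I) hm N δ - Bn hm N‖ ≤ (8/3) * ω := by
    apply LL_bottom hI' hm hmh.continuous N δ ω hω0.le
    intro s hs t ht
    have := Hlow (-1) (Or.inr rfl) s hs t ht
    simpa [hmdef] using this
  have b3 : Bn hm N = Bn h N := by
    unfold Bn; simp [hmdef]
  have t1 := one_side hI h hh N HK1 1
  have t2 := one_side hI' hm hmh N HKm 0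
  rw [mul_zero, zero_sub, norm_neg] at t2
  simp only [sub_zero] at t2
  rw [mul_one] at t1
  simp only [hmd'] at t2
  rw [b3] at b2
  have hQ := Qn_lower N
  have hQn : ‖(Qn N : ℂ)‖ = Qn N := by
    rw [Complex.norm_real, Real.norm_eq_abs, abs_of_nonneg (by linarith)]
  have tri : ‖(Qn N : ℂ)‖ ≤ ‖(Qn N : ℂ) - LL Complex.I h N δ‖ +
      ‖LL Complex.I h N δ - Bn h N‖ + ‖LL (-Complex.I) hm N δ - Bn h N‖ +
      ‖LL (-Complex.I) hm N δ‖ := by
    have e : (Qn N : ℂ) = ((Qn N : ℂ) - LL Complex.I h N δ) + (LL Complex.I h N δ - Bn h N) +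
      (-(LL (-Complex.I) hm N δ - Bn h N)) + LL (-Complex.I) hm N δ := by ring
    calc ‖(Qn N : ℂ)‖ = ‖((Qn N : ℂ) - LL Complex.I h N δ) + (LL Complex.I h N δ - Bn h N) +
      (-(LL (-Complex.I) hm N δ - Bn h N)) + LL (-Complex.I) hm N δ‖ := by rw [← e]
      _ ≤ _ := by
        refine (norm_add_le _ _).trans ?_
        gcongr
        refine (norm_add_le _ _).trans ?_
        rw [norm_neg]
        gcongr
        exact norm_add_le _ _
  rw [hQn] at tri
  have hfin : (8/3) * ω + (8/3) * ω < 1/3 - R := by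
    rw [hω]; linarith
  linarith

end Pool.Agent.W34023b
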