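import Mathlib
import Pool.Agent.W34023b.I

set_option autoImplicit false
open MeasureTheory Set Filter Topology

namespace Pool.Agent.W34023b

lemma exists_d : ∃ d : ℝ → ℝ, ContDiff ℝ 1 d ∧ (∀ x, 0 ≤ d x) ∧ (∀ x, d x = 0 ↔ x ∈ E) ∧
    (∀ x ∈ Icc (-4:ℝ) 5, d x ≤ Metric.infDist x E / 2) := by
  obtain ⟨d0, hs, hc, hr⟩ := IsOpen.exists_contDiff_support_eq (n := 1) (E_closed.isOpen_compl)
  have hc' : ContDiff ℝ 1 d0 := by simpa using hc
  have hdiff : Differentiable ℝ d0 := hc'.differentiable (by norm_num)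
  have hdc : Continuous (deriv d0) := hc'.continuous_deriv (by norm_num)
  obtain ⟨L, hL⟩ := (isCompact_Icc (a := (-4:ℝ)) (b := 5)).exists_bound_of_continuousOn
    hdc.continuousOn
  have hL0 : 0 ≤ L := (norm_nonneg _).trans (hL 0 ⟨by norm_num, by norm_num⟩)
  refine ⟨fun x => d0 x / (2 * (L + 1)), ?_, ?_, ?_, ?_⟩
  · exact hc'.div_const _
  · intro x
    have : d0 x ∈ Icc (0:ℝ) 1 := hr ⟨x, rfl⟩
    exact div_nonneg this.1 (by linarith)
  · intro x
    rw [div_eq_zero_iff]
    have h2 : (2 * (L + 1)) ≠ 0 := by linarith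
    constructor
    · rintro (h | h)
      · by_contra hx
        have : x ∈ Function.support d0 := by rw [hs]; exact hx
        exact this h
      · exact absurd h h2
    · intro hx
      left
      by_contra h
      have : x ∈ Function.support d0 := h
      rw [hs] at this
      exact this hx
  · intro x hx
    obtain ⟨e, he, hd⟩ := E_closed.exists_infDist_eq_dist E_nonempty x
    have he1 := E_sub_Icc he
    have he2 : e ∈ Icc (-4:ℝ) 5 := ⟨by linarith [he1.1], by linarith [he1.2]⟩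
    have hd0e : d0 e = 0 := by
      by_contra h
      have : e ∈ Function.support d0 := h
      rw [hs] at this
      exact this he
    have h1 := Convex.norm_image_sub_le_of_norm_deriv_le (f := d0) (s := Icc (-4:ℝ) 5) (C := L)
      (fun x _ => hdiff x) hL (convex_Icc _ _) he2 hx
    rw [hd0e, sub_zero, ← dist_eq_norm, ← hd] at h1
    have h2 : d0 x ≤ L * Metric.infDist x E := (Real.le_norm_self _).trans h1
    have h3 : 0 ≤ Metric.infDist x E := Metric.infDist_nonneg
    rw [div_le_div_iff₀ (by linarith) (by norm_num)]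
    nlinarith

lemma hasDerivAt_max_sq (t : ℝ) : HasDerivAt (fun t : ℝ => (max t 0) ^ 2) (2 * max t 0) t := by
  rcases lt_trichotomy t 0 with h | h | h
  · have e : (fun t : ℝ => (max t 0) ^ 2) =ᶠ[𝓝 t] fun _ => 0 := by
      filter_upwards [Iio_mem_nhds h] with s hs
      rw [max_eq_right (le_of_lt hs)]; norm_num
    rw [max_eq_right h.le, mul_zero]
    exact (hasDerivAt_const t (0:ℝ)).congr_of_eventuallyEq e
  · subst h
    simp only [max_self, mul_zero]
    rw [hasDerivAt_iff_isLittleO]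
    simp only [max_self, smul_zero, sub_zero]
    have h1 : (fun t : ℝ => (max t 0) ^ 2 - 0 ^ 2) =O[𝓝 0] fun t => t ^ 2 := by
      apply Asymptotics.IsBigO.of_bound 1
      refine Filter.Eventually.of_forall fun t => ?_
      rw [one_mul, Real.norm_eq_abs, Real.norm_eq_abs]
      rcases le_total t 0 with h | h
      · rw [max_eq_right h]; simp; positivity
      · rw [max_eq_left h]; simp
    refine h1.trans_isLittleO ?_
    exact Asymptotics.isLittleO_pow_id one_lt_two
  · have e : (fun t : ℝ => (max t 0) ^ 2) =ᶠ[𝓝 t] fun t => t ^ 2 := by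
      filter_upwards [Ioi_mem_nhds h] with s hs
      rw [max_eq_left (le_of_lt hs)]
    rw [max_eq_left h.le]
    have := (hasDerivAt_pow 2 t).congr_of_eventuallyEq e
    simpa using this

noncomputable def aa (d : ℝ → ℝ) (p : ℝ × ℝ) : ℝ := max (p.2 + d p.1) 0
noncomputable def bb (d : ℝ → ℝ) (p : ℝ × ℝ) : ℝ := max (d p.1 - p.2) 0
noncomputable def ff (d : ℝ → ℝ) (p : ℝ × ℝ) : ℝ := aa d p ^ 2 / (aa d p ^ 2 + bb d p ^ 2)
noncomputable def ffy (d : ℝ → ℝ) (p : ℝ × ℝ) : ℝ :=
  2 * aa d p * bb d p * (aa d p + bb d p) / (aa d p ^ 2 + bb d p ^ 2) ^ 2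
noncomputable def ffx (d : ℝ → ℝ) (p : ℝ × ℝ) : ℝ :=
  2 * aa d p * bb d p * (bb d p - aa d p) * deriv d p.1 / (aa d p ^ 2 + bb d p ^ 2) ^ 2

section
variable (d : ℝ → ℝ)

lemma aa_nonneg (p : ℝ × ℝ) : 0 ≤ aa d p := le_max_right _ _
lemma bb_nonneg (p : ℝ × ℝ) : 0 ≤ bb d p := le_max_right _ _

lemma den_pos (hd0 : ∀ x, 0 ≤ d x) (p : ℝ × ℝ) (hp : d p.1 ≠ 0 ∨ p.2 ≠ 0) :
    0 < aa d p ^ 2 + bb d p ^ 2 := by
  by_contra hcon
  push Not at hcon
  have h1 : aa d p = 0 := by
    have := sq_nonneg (bb d p)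
    have h2 : aa d p ^ 2 ≤ 0 := by linarith
    exact pow_eq_zero_iff (two_ne_zero) |>.1 (le_antisymm h2 (sq_nonneg _))
  have h2 : bb d p = 0 := by
    have := sq_nonneg (aa d p)
    have h2 : bb d p ^ 2 ≤ 0 := by linarith
    exact pow_eq_zero_iff (two_ne_zero) |>.1 (le_antisymm h2 (sq_nonneg _))
  have h3 : p.2 + d p.1 ≤ 0 := by rw [← h1]; exact le_max_left _ _
  have h4 : d p.1 - p.2 ≤ 0 := by rw [← h2]; exact le_max_left _ _
  have h5 := hd0 p.1
  rcases hp with h | h
  · apply h; linarith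
  · apply h; linarith

lemma ff_nonneg (p : ℝ × ℝ) : 0 ≤ ff d p := by unfold ff; positivity

lemma ff_le_one (p : ℝ × ℝ) : ff d p ≤ 1 := by
  unfold ff
  apply div_le_one_of_le₀ _ (by positivity)
  have := sq_nonneg (bb d p)
  linarith

lemma ffy_nonneg (p : ℝ × ℝ) : 0 ≤ ffy d p := by
  unfold ffy
  have := aa_nonneg d p
  have := bb_nonneg d p
  positivity

lemma ffx_le (p : ℝ × ℝ) : |ffx d p| ≤ |deriv d p.1| * ffy d p := by
  unfold ffx ffy
  have h1 := aa_nonneg d p
  have h2 := bb_nonneg d p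
  have h3 : |bb d p - aa d p| ≤ aa d p + bb d p := by
    rw [abs_le]; constructor <;> linarith
  rw [abs_div, abs_mul, abs_mul, abs_of_nonneg (by positivity : 0 ≤ 2 * aa d p * bb d p),
    abs_of_nonneg (by positivity : 0 ≤ (aa d p ^ 2 + bb d p ^ 2) ^ 2)]
  rw [mul_div_assoc']
  apply div_le_div_of_nonneg_right _ (by positivity)
  have h4 : 0 ≤ 2 * aa d p * bb d p := by positivity
  have h5 := abs_nonneg (deriv d p.1)
  calc 2 * aa d p * bb d p * |bb d p - aa d p| * |deriv d p.1|
      ≤ 2 * aa d p * bb d p * (aa d p + bb d p) * |deriv d p.1| := by gcongr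
    _ = _ := by ring

lemma ff_deriv_y (hd0 : ∀ x, 0 ≤ d x) (x : ℝ) (hx : d x ≠ 0) (y : ℝ) :
    HasDerivAt (fun y => ff d (x, y)) (ffy d (x, y)) y := by
  have hp := den_pos d hd0 (x, y) (Or.inl hx)
  have a1 : HasDerivAt (fun y : ℝ => aa d (x, y) ^ 2) (2 * aa d (x, y)) y := by
    have h1 : HasDerivAt (fun y : ℝ => y + d x) 1 y := (hasDerivAt_id y).add_const _
    have h2 : HasDerivAt (fun y : ℝ => aa d (x, y) ^ 2) (2 * max (y + d x) 0 * 1) y :=
      HasDerivAt.comp (h₂ := fun t : ℝ => (max t 0) ^ 2) (h := fun y : ℝ => y + d x) y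
        (hasDerivAt_max_sq (y + d x)) h1
    exact h2.congr_deriv (by unfold aa; ring)
  have a2 : HasDerivAt (fun y : ℝ => bb d (x, y) ^ 2) (-(2 * bb d (x, y))) y := by
    have h1 : HasDerivAt (fun y : ℝ => d x - y) (-1) y := by
      simpa using (hasDerivAt_id y).const_sub (d x)
    have h2 : HasDerivAt (fun y : ℝ => bb d (x, y) ^ 2) (2 * max (d x - y) 0 * (-1)) y :=
      HasDerivAt.comp (h₂ := fun t : ℝ => (max t 0) ^ 2) (h := fun y : ℝ => d x - y) y
        (hasDerivAt_max_sq (d x - y)) h1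
    exact h2.congr_deriv (by unfold bb; ring)
  have h := a1.div (a1.add a2) hp.ne'
  refine h.congr_deriv ?_
  unfold ffy
  simp only [Pi.add_apply]
  congr 1
  ring

lemma ff_deriv_x (hd : ContDiff ℝ 1 d) (hd0 : ∀ x, 0 ≤ d x) (y : ℝ) (hy : y ≠ 0) (x : ℝ) :
    HasDerivAt (fun x => ff d (x, y)) (ffx d (x, y)) x := by
  have hp := den_pos d hd0 (x, y) (Or.inr hy)
  have hdx : HasDerivAt d (deriv d x) x := (hd.differentiable (by norm_num) x).hasDerivAt
  have a1 : HasDerivAt (fun x : ℝ => aa d (x, y) ^ 2) (2 * aa d (x, y) * deriv d x) x := by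
    have h1 : HasDerivAt (fun x : ℝ => y + d x) (deriv d x) x := hdx.const_add _
    have h2 : HasDerivAt (fun x : ℝ => aa d (x, y) ^ 2) (2 * max (y + d x) 0 * deriv d x) x :=
      HasDerivAt.comp (h₂ := fun t : ℝ => (max t 0) ^ 2) (h := fun x : ℝ => y + d x) x
        (hasDerivAt_max_sq (y + d x)) h1
    exact h2.congr_deriv (by unfold aa; ring)
  have a2 : HasDerivAt (fun x : ℝ => bb d (x, y) ^ 2) (2 * bb d (x, y) * deriv d x) x := by
    have h1 : HasDerivAt (fun x : ℝ => d x - y) (deriv d x) x := hdx.sub_const _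
    have h2 : HasDerivAt (fun x : ℝ => bb d (x, y) ^ 2) (2 * max (d x - y) 0 * deriv d x) x :=
      HasDerivAt.comp (h₂ := fun t : ℝ => (max t 0) ^ 2) (h := fun x : ℝ => d x - y) x
        (hasDerivAt_max_sq (d x - y)) h1
    exact h2.congr_deriv (by unfold bb; ring)
  have h := a1.div (a1.add a2) hp.ne'
  refine h.congr_deriv ?_
  unfold ffx
  simp only [Pi.add_apply]
  congr 1
  ring

lemma aa_cont (hd : Continuous d) : Continuous (aa d) := by unfold aa; fun_prop
lemma bb_cont (hd : Continuous d) : Continuous (bb d) := by unfold bb; fun_prop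

lemma ff_meas (hd : Continuous d) : Measurable (ff d) := by
  have h1 := (aa_cont d hd).measurable
  have h2 := (bb_cont d hd).measurable
  unfold ff
  fun_prop

lemma ffy_meas (hd : Continuous d) : Measurable (ffy d) := by
  have h1 := (aa_cont d hd).measurable
  have h2 := (bb_cont d hd).measurable
  unfold ffy
  fun_prop

lemma ffx_meas (hd : ContDiff ℝ 1 d) : Measurable (ffx d) := by
  have h1 := (aa_cont d hd.continuous).measurable
  have h2 := (bb_cont d hd.continuous).measurable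
  have h3 : Continuous (deriv d) := hd.continuous_deriv (by norm_num)
  have h4 : Measurable (fun p : ℝ × ℝ => deriv d p.1) := (h3.comp continuous_fst).measurable
  unfold ffx
  fun_prop

lemma ffy_cont_y (hd : ContDiff ℝ 1 d) (hd0 : ∀ x, 0 ≤ d x) (x : ℝ) (hx : d x ≠ 0) :
    Continuous (fun y => ffy d (x, y)) := by
  have h1 := aa_cont d hd.continuous
  have h2 := bb_cont d hd.continuous
  unfold ffy
  apply Continuous.div (by fun_prop) (by fun_prop)
  intro y
  have := den_pos d hd0 (x, y) (Or.inl hx)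
  positivity

lemma ffx_cont_x (hd : ContDiff ℝ 1 d) (hd0 : ∀ x, 0 ≤ d x) (y : ℝ) (hy : y ≠ 0) :
    Continuous (fun x => ffx d (x, y)) := by
  have h1 := aa_cont d hd.continuous
  have h2 := bb_cont d hd.continuous
  have h3 : Continuous (deriv d) := hd.continuous_deriv (by norm_num)
  unfold ffx
  apply Continuous.div (by fun_prop) (by fun_prop)
  intro x
  have := den_pos d hd0 (x, y) (Or.inr hy)
  positivity

/-- the square of size `R` -/
def sq (R : ℝ) : Set (ℝ × ℝ) := Icc (-R) R ×ˢ Icc (-R) R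

lemma ae_d_ne (hdE : ∀ x, d x = 0 ↔ x ∈ E) : ∀ᵐ x : ℝ, d x ≠ 0 := by
  have h : ∀ᵐ x : ℝ, x ∉ E := by
    rw [ae_iff]; simpa using E_null
  filter_upwards [h] with x hx h0
  exact hx ((hdE x).1 h0)

lemma ffy_integrable (hd : ContDiff ℝ 1 d) (hd0 : ∀ x, 0 ≤ d x) (hdE : ∀ x, d x = 0 ↔ x ∈ E)
    (R : ℝ) (hR : 0 ≤ R) : IntegrableOn (ffy d) (sq R) := by
  unfold IntegrableOn sq
  rw [Measure.volume_eq_prod, ← Measure.prod_restrict]
  have hm := (ffy_meas d hd.continuous)
  rw [integrable_prod_iff hm.aestronglyMeasurable]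
  have hae : ∀ᵐ x : ℝ ∂(volume.restrict (Icc (-R) R)), d x ≠ 0 :=
    ae_restrict_of_ae (ae_d_ne d hdE)
  constructor
  · filter_upwards [hae] with x hx
    exact ((ffy_cont_y d hd hd0 x hx).continuousOn).integrableOn_compact isCompact_Icc
  · have hb : Integrable (fun _ : ℝ => (1:ℝ)) (volume.restrict (Icc (-R) R)) :=
      integrableOn_const (by simp)
    refine hb.mono' ?_ ?_
    · have := hm.norm.stronglyMeasurable.integral_prod_right' (ν := volume.restrict (Icc (-R) R))
      exact this.aestronglyMeasurable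
    · filter_upwards [hae] with x hx
      have e : ∫ y in Icc (-R) R, ‖ffy d (x, y)‖ = ff d (x, R) - ff d (x, -R) := by
        have e1 : ∀ y, ‖ffy d (x, y)‖ = ffy d (x, y) := fun y => by
          rw [Real.norm_eq_abs, abs_of_nonneg (ffy_nonneg d _)]
        simp only [e1]
        rw [integral_Icc_eq_integral_Ioc, ← intervalIntegral.integral_of_le (by linarith)]
        exact intervalIntegral.integral_eq_sub_of_hasDerivAt
          (fun y _ => ff_deriv_y d hd0 x hx y)
          ((ffy_cont_y d hd hd0 x hx).intervalIntegrable _ _)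
      rw [e, Real.norm_eq_abs, abs_le]
      have a1 := ff_nonneg d (x, R)
      have a2 := ff_nonneg d (x, -R)
      have a3 := ff_le_one d (x, R)
      have a4 := ff_le_one d (x, -R)
      constructor <;> linarith

lemma ffx_integrable (hd : ContDiff ℝ 1 d) (hd0 : ∀ x, 0 ≤ d x) (hdE : ∀ x, d x = 0 ↔ x ∈ E)
    (R : ℝ) (hR : 0 ≤ R) : IntegrableOn (ffx d) (sq R) := by
  have h3 : Continuous (deriv d) := hd.continuous_deriv (by norm_num)
  obtain ⟨M, hM⟩ := (isCompact_Icc (a := -R) (b := R)).exists_bound_of_continuousOn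
    h3.continuousOn
  have h1 := (ffy_integrable d hd hd0 hdE R hR).const_mul M
  refine Integrable.mono' h1 (ffx_meas d hd).aestronglyMeasurable ?_
  have hms : MeasurableSet (sq R) := measurableSet_Icc.prod measurableSet_Icc
  filter_upwards [ae_restrict_mem hms] with p hp
  rw [Real.norm_eq_abs]
  refine (ffx_le d p).trans ?_
  have := hM p.1 hp.1
  rw [Real.norm_eq_abs] at this
  have := ffy_nonneg d p
  gcongr

lemma ff_integrable (hd : ContDiff ℝ 1 d) (R : ℝ) : IntegrableOn (ff d) (sq R) := by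
  have hfin : volume (sq R) < ⊤ := (isCompact_Icc.prod isCompact_Icc).measure_lt_top
  have hb : IntegrableOn (fun _ : ℝ × ℝ => (1:ℝ)) (sq R) := integrableOn_const hfin.ne
  refine Integrable.mono' hb (ff_meas d hd.continuous).aestronglyMeasurable ?_
  refine Filter.Eventually.of_forall fun p => ?_
  rw [Real.norm_eq_abs, abs_of_nonneg (ff_nonneg d p)]
  exact ff_le_one d p

/-- product with a compactly supported continuous function -/
lemma mul_integrable (g : ℝ × ℝ → ℝ) (hg : ∀ R, 0 ≤ R → IntegrableOn g (sq R))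
    (Φ : ℝ × ℝ → ℂ) (hΦ : Continuous Φ) (hc : HasCompactSupport Φ) :
    Integrable (fun p => (g p : ℂ) * Φ p) := by
  obtain ⟨R, hR0, hR⟩ : ∃ R : ℝ, 0 ≤ R ∧ tsupport Φ ⊆ sq R := by
    obtain ⟨R, hR⟩ := hc.isCompact.isBounded.subset_closedBall (0 : ℝ × ℝ)
    refine ⟨max R 0, le_max_right _ _, fun p hp => ?_⟩
    have h := hR hp
    rw [mem_closedBall_zero_iff, Prod.norm_def] at h
    have h1 := (le_max_left _ _).trans (h.trans (le_max_left R 0))
    have h2 := (le_max_right _ _).trans (h.trans (le_max_left R 0))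
    rw [Real.norm_eq_abs, abs_le] at h1 h2
    exact ⟨⟨h1.1, h1.2⟩, ⟨h2.1, h2.2⟩⟩
  have hms : MeasurableSet (sq R) := measurableSet_Icc.prod measurableSet_Icc
  obtain ⟨M, hM⟩ := hc.exists_bound_of_continuous hΦ
  have h1 : IntegrableOn (fun p => (g p : ℂ) * Φ p) (sq R) := by
    exact Integrable.mul_bdd ((hg R hR0).ofReal) hΦ.aestronglyMeasurable
      (Filter.Eventually.of_forall hM)
  rw [← integrableOn_univ]
  refine IntegrableOn.of_forall_sdiff_eq_zero h1 MeasurableSet.univ ?_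
  intro p hp
  have : p ∉ tsupport Φ := fun h => hp.2 (hR h)
  rw [image_eq_zero_of_notMem_tsupport this, mul_zero]

lemma section_right (Ψ : ℝ × ℝ → ℂ) (hc : HasCompactSupport Ψ) (x : ℝ) :
    HasCompactSupport (fun y : ℝ => Ψ (x, y)) := by
  apply HasCompactSupport.intro (hc.isCompact.image continuous_snd)
  intro y hy
  apply image_eq_zero_of_notMem_tsupport
  intro h
  exact hy ⟨(x, y), h, rfl⟩

lemma section_left (Ψ : ℝ × ℝ → ℂ) (hc : HasCompactSupport Ψ) (y : ℝ) :
    HasCompactSupport (fun x : ℝ => Ψ (x, y)) := by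
  apply HasCompactSupport.intro (hc.isCompact.image continuous_fst)
  intro x hx
  apply image_eq_zero_of_notMem_tsupport
  intro h
  exact hx ⟨(x, y), h, rfl⟩

lemma weak_y (hd : ContDiff ℝ 1 d) (hd0 : ∀ x, 0 ≤ d x) (hdE : ∀ x, d x = 0 ↔ x ∈ E)
    (Φ : ℝ × ℝ → ℂ) (hΦ : ContDiff ℝ 1 Φ) (hc : HasCompactSupport Φ) :
    ∫ p, (ffy d p : ℂ) * Φ p = - ∫ p, (ff d p : ℂ) * fderiv ℝ Φ p (0, 1) := by
  have hΦd : Differentiable ℝ Φ := hΦ.differentiable (by norm_num)
  have hΦc : Continuous (fun p => fderiv ℝ Φ p (0, 1)) :=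
    (hΦ.continuous_fderiv (by norm_num)).clm_apply continuous_const
  have hcd : HasCompactSupport (fun p => fderiv ℝ Φ p (0, 1)) := hc.fderiv_apply ℝ (0, 1)
  have i1 := mul_integrable (ffy d) (ffy_integrable d hd hd0 hdE) Φ hΦ.continuous hc
  have i2 := mul_integrable (ff d) (fun R _ => ff_integrable d hd R) _ hΦc hcd
  rw [Measure.volume_eq_prod] at *
  rw [integral_prod _ i1, integral_prod _ i2, ← integral_neg]
  apply integral_congr_ae
  filter_upwards [ae_d_ne d hdE] with x hx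
  have c1 : Continuous (fun y => (ff d (x, y) : ℂ)) :=
    Complex.continuous_ofReal.comp (continuous_iff_continuousAt.2 fun y =>
      (ff_deriv_y d hd0 x hx y).continuousAt)
  have c2 : Continuous (fun y => (ffy d (x, y) : ℂ)) :=
    Complex.continuous_ofReal.comp (ffy_cont_y d hd hd0 x hx)
  have c3 : Continuous (fun y : ℝ => Φ (x, y)) := hΦ.continuous.comp (by fun_prop)
  have c4 : Continuous (fun y : ℝ => fderiv ℝ Φ (x, y) (0, 1)) := hΦc.comp (by fun_prop)
  have s1 := section_right Φ hc x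
  have s2 := section_right _ hcd x
  have key := integral_mul_deriv_eq_deriv_mul_of_integrable
    (u := fun y : ℝ => (ff d (x, y) : ℂ)) (v := fun y : ℝ => Φ (x, y))
    (u' := fun y : ℝ => (ffy d (x, y) : ℂ)) (v' := fun y : ℝ => fderiv ℝ Φ (x, y) (0, 1))
    (fun y _ => (ff_deriv_y d hd0 x hx y).ofReal_comp)
    (fun y _ => by
      have d1 : HasDerivAt (fun y : ℝ => (x, y)) (0, 1) y :=
        (hasDerivAt_const y x).prodMk (hasDerivAt_id y)
      exact HasFDerivAt.comp_hasDerivAt (f := fun y : ℝ => (x, y)) y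
        (hΦd (x, y)).hasFDerivAt d1)
    ((c1.mul c4).integrable_of_hasCompactSupport s2.mul_left)
    ((c2.mul c3).integrable_of_hasCompactSupport s1.mul_left)
    ((c1.mul c3).integrable_of_hasCompactSupport s1.mul_left)
  rw [key, neg_neg]

lemma weak_x (hd : ContDiff ℝ 1 d) (hd0 : ∀ x, 0 ≤ d x) (hdE : ∀ x, d x = 0 ↔ x ∈ E)
    (Φ : ℝ × ℝ → ℂ) (hΦ : ContDiff ℝ 1 Φ) (hc : HasCompactSupport Φ) :
    ∫ p, (ffx d p : ℂ) * Φ p = - ∫ p, (ff d p : ℂ) * fderiv ℝ Φ p (1, 0) := by
  have hΦd : Differentiable ℝ Φ := hΦ.differentiable (by norm_num)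
  have hΦc : Continuous (fun p => fderiv ℝ Φ p (1, 0)) :=
    (hΦ.continuous_fderiv (by norm_num)).clm_apply continuous_const
  have hcd : HasCompactSupport (fun p => fderiv ℝ Φ p (1, 0)) := hc.fderiv_apply ℝ (1, 0)
  have i1 := mul_integrable (ffx d) (ffx_integrable d hd hd0 hdE) Φ hΦ.continuous hc
  have i2 := mul_integrable (ff d) (fun R _ => ff_integrable d hd R) _ hΦc hcd
  rw [Measure.volume_eq_prod] at *
  rw [integral_prod_symm _ i1, integral_prod_symm _ i2, ← integral_neg]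
  apply integral_congr_ae
  have hae : ∀ᵐ y : ℝ, y ≠ 0 := by
    rw [ae_iff]; simp
  filter_upwards [hae] with y hy
  have c1 : Continuous (fun x => (ff d (x, y) : ℂ)) :=
    Complex.continuous_ofReal.comp (continuous_iff_continuousAt.2 fun x =>
      (ff_deriv_x d hd hd0 y hy x).continuousAt)
  have c2 : Continuous (fun x => (ffx d (x, y) : ℂ)) :=
    Complex.continuous_ofReal.comp (ffx_cont_x d hd hd0 y hy)
  have c3 : Continuous (fun x : ℝ => Φ (x, y)) := hΦ.continuous.comp (by fun_prop)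
  have c4 : Continuous (fun x : ℝ => fderiv ℝ Φ (x, y) (1, 0)) := hΦc.comp (by fun_prop)
  have s1 := section_left Φ hc y
  have s2 := section_left _ hcd y
  have key := integral_mul_deriv_eq_deriv_mul_of_integrable
    (u := fun x : ℝ => (ff d (x, y) : ℂ)) (v := fun x : ℝ => Φ (x, y))
    (u' := fun x : ℝ => (ffx d (x, y) : ℂ)) (v' := fun x : ℝ => fderiv ℝ Φ (x, y) (1, 0))
    (fun x _ => (ff_deriv_x d hd hd0 y hy x).ofReal_comp)
    (fun x _ => by
      have d1 : HasDerivAt (fun x : ℝ => (x, y)) (1, 0) x :=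
        (hasDerivAt_id x).prodMk (hasDerivAt_const x y)
      exact HasFDerivAt.comp_hasDerivAt (f := fun x : ℝ => (x, y)) x
        (hΦd (x, y)).hasFDerivAt d1)
    ((c1.mul c4).integrable_of_hasCompactSupport s2.mul_left)
    ((c2.mul c3).integrable_of_hasCompactSupport s1.mul_left)
    ((c1.mul c3).integrable_of_hasCompactSupport s1.mul_left)
  rw [key, neg_neg]

/-- on the region `d x ≤ |y|` the derivatives vanish -/
lemma ffx_zero (p : ℝ × ℝ) (h : d p.1 ≤ |p.2|) : ffx d p = 0 := by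
  unfold ffx
  rcases le_total 0 p.2 with hp | hp
  · rw [abs_of_nonneg hp] at h
    have : bb d p = 0 := by unfold bb; exact max_eq_right (by linarith)
    rw [this]; ring
  · rw [abs_of_nonpos hp] at h
    have : aa d p = 0 := by unfold aa; exact max_eq_right (by linarith)
    rw [this]; ring

lemma ffy_zero (p : ℝ × ℝ) (h : d p.1 ≤ |p.2|) : ffy d p = 0 := by
  unfold ffy
  rcases le_total 0 p.2 with hp | hp
  · rw [abs_of_nonneg hp] at h
    have : bb d p = 0 := by unfold bb; exact max_eq_right (by linarith)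
    rw [this]; ring
  · rw [abs_of_nonpos hp] at h
    have : aa d p = 0 := by unfold aa; exact max_eq_right (by linarith)
    rw [this]; ring

lemma ff_one (hd0 : ∀ x, 0 ≤ d x) (p : ℝ × ℝ) (h : d p.1 ≤ |p.2|) (hp : 0 < p.2) :
    ff d p = 1 := by
  unfold ff
  rw [abs_of_pos hp] at h
  have h1 : bb d p = 0 := by unfold bb; exact max_eq_right (by linarith)
  have h2 := den_pos d hd0 p (Or.inr hp.ne')
  rw [h1] at h2 ⊢
  simp only [ne_eq, OfNat.ofNat_ne_zero, not_false_eq_true, zero_pow, add_zero] at h2 ⊢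
  exact div_self h2.ne'

lemma ff_zero (p : ℝ × ℝ) (h : d p.1 ≤ |p.2|) (hp : p.2 ≤ 0) :
    ff d p = 0 := by
  unfold ff
  rw [abs_of_nonpos hp] at h
  have h1 : aa d p = 0 := by unfold aa; exact max_eq_right (by linarith)
  rw [h1]; simp

end

end Pool.Agent.W34023b
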