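import Mathlib
import Pool.Agent.W34023b.J

set_option autoImplicit false
open MeasureTheory Set Filter Topology

namespace Pool.Agent.W34023b

abbrev E2 := EuclideanSpace ℝ (Fin 2)

noncomputable def e2 : E2 ≃ᵐ ℝ × ℝ :=
  (MeasurableEquiv.toLp 2 (Fin 2 → ℝ)).symm.trans MeasurableEquiv.finTwoArrow

lemma e2_mp : MeasurePreserving e2 volume volume := by
  unfold e2
  exact (EuclideanSpace.volume_preserving_symm_measurableEquiv_toLp (Fin 2)).trans
    (volume_preserving_finTwoArrow ℝ)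

lemma e2_apply (x : E2) : e2 x = (x 0, x 1) := rfl

lemma e2_cont : Continuous e2 := by
  have : (e2 : E2 → ℝ × ℝ) = fun x => (x 0, x 1) := rfl
  rw [this]; fun_prop

/-- the linear map `(x, y) ↦ !₂[x, y]` -/
noncomputable def io : ℝ × ℝ →L[ℝ] E2 :=
  (ContinuousLinearMap.fst ℝ ℝ ℝ).smulRight (EuclideanSpace.single 0 (1:ℝ)) +
  (ContinuousLinearMap.snd ℝ ℝ ℝ).smulRight (EuclideanSpace.single 1 (1:ℝ))

lemma io_apply (p : ℝ × ℝ) : io p = p.1 • EuclideanSpace.single 0 (1:ℝ) +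
    p.2 • EuclideanSpace.single 1 (1:ℝ) := by
  simp [io]

lemma io_zero (p : ℝ × ℝ) : (io p) 0 = p.1 := by
  rw [io_apply]; simp

lemma io_one (p : ℝ × ℝ) : (io p) 1 = p.2 := by
  rw [io_apply]; simp

lemma e2_io (p : ℝ × ℝ) : e2 (io p) = p := by
  rw [e2_apply, io_zero, io_one]

lemma io_e2 (x : E2) : io (e2 x) = x := by
  ext i
  fin_cases i
  · exact io_zero (e2 x)
  · exact io_one (e2 x)

lemma e2_symm (p : ℝ × ℝ) : e2.symm p = io p := by
  apply e2.injective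
  rw [e2_io]; simp

lemma io_e1 : io (1, 0) = EuclideanSpace.single 0 (1:ℝ) := by rw [io_apply]; simp
lemma io_e2' : io (0, 1) = EuclideanSpace.single 1 (1:ℝ) := by rw [io_apply]; simp

lemma fderiv_io (φ : E2 → ℂ) (hφ : Differentiable ℝ φ) (p v : ℝ × ℝ) :
    fderiv ℝ (fun p => φ (io p)) p v = fderiv ℝ φ (io p) (io v) := by
  have h1 := HasFDerivAt.comp (f := io) p (hφ (io p)).hasFDerivAt io.hasFDerivAt
  have h2 : HasFDerivAt (fun p => φ (io p)) _ p := h1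
  rw [h2.fderiv]; rfl

lemma compact_io (φ : E2 → ℂ) (hc : HasCompactSupport φ) :
    HasCompactSupport (fun p => φ (io p)) := by
  apply HasCompactSupport.intro (hc.isCompact.image e2_cont)
  intro p hp
  apply image_eq_zero_of_notMem_tsupport
  intro h
  exact hp ⟨io p, h, e2_io p⟩

/-- the differential operator of the statement, in dimension two -/
noncomputable def Dop (α : Fin 2 → ℕ) (φ : E2 → ℂ) : E2 → ℂ :=
  (List.finRange 2).foldr
        (fun i ψ => (fun χ : EuclideanSpace ℝ (Fin 2) → ℂ =>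
            fun x => fderiv ℝ χ x (EuclideanSpace.single i (1 : ℝ)))^[α i] ψ) φ

lemma Dop_eq (α : Fin 2 → ℕ) (φ : E2 → ℂ) : Dop α φ = (fun χ : E2 → ℂ =>
            fun x => fderiv ℝ χ x (EuclideanSpace.single 0 (1 : ℝ)))^[α 0] ((fun χ : E2 → ℂ =>
            fun x => fderiv ℝ χ x (EuclideanSpace.single 1 (1 : ℝ)))^[α 1] φ) := rfl

lemma Dop_00 (α : Fin 2 → ℕ) (h0 : α 0 = 0) (h1 : α 1 = 0) (φ : E2 → ℂ) : Dop α φ = φ := by
  rw [Dop_eq, h0, h1]; rfl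

lemma Dop_10 (α : Fin 2 → ℕ) (h0 : α 0 = 1) (h1 : α 1 = 0) (φ : E2 → ℂ) :
    Dop α φ = fun x => fderiv ℝ φ x (EuclideanSpace.single 0 (1 : ℝ)) := by
  rw [Dop_eq, h0, h1]; rfl

lemma Dop_01 (α : Fin 2 → ℕ) (h0 : α 0 = 0) (h1 : α 1 = 1) (φ : E2 → ℂ) :
    Dop α φ = fun x => fderiv ℝ φ x (EuclideanSpace.single 1 (1 : ℝ)) := by
  rw [Dop_eq, h0, h1]; rfl

/-- coefficients of the Cauchy-Riemann operator -/
noncomputable def cc (β : Fin 2 → Fin (1 + 1)) : ℂ :=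
  if β 0 = 1 ∧ β 1 = 0 then 1 else if β 0 = 0 ∧ β 1 = 1 then Complex.I else 0

lemma sum_cc (f : (Fin 2 → Fin (1 + 1)) → ℂ) :
    ∑ β, cc β * f β = f ![1, 0] + Complex.I * f ![0, 1] := by
  rw [Fintype.sum_eq_add (![1, 0] : Fin 2 → Fin (1+1)) (![0, 1])]
  · simp [cc]
  · intro h
    have := congrFun h 0
    simp at this
  · rintro β ⟨h1, h2⟩
    have : cc β = 0 := by
      unfold cc
      rw [if_neg, if_neg]
      · rintro ⟨a, b⟩
        apply h2
        ext i; fin_cases i <;> simp [a, b]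
      · rintro ⟨a, b⟩
        apply h1
        ext i; fin_cases i <;> simp [a, b]
    rw [this, zero_mul]

/-- the tuple of weak derivatives -/
noncomputable def gg (d : ℝ → ℝ) (α : Fin 2 → ℕ) (x : E2) : ℂ :=
  if α 0 = 0 ∧ α 1 = 0 then (ff d (e2 x) : ℂ) else
  if α 0 = 1 ∧ α 1 = 0 then (ffx d (e2 x) : ℂ) else
  if α 0 = 0 ∧ α 1 = 1 then (ffy d (e2 x) : ℂ) else 0

lemma cases_alpha (α : Fin 2 → ℕ) (h : ∑ i, α i ≤ 1) :
    (α 0 = 0 ∧ α 1 = 0) ∨ (α 0 = 1 ∧ α 1 = 0) ∨ (α 0 = 0 ∧ α 1 = 1) := by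
  rw [Fin.sum_univ_two] at h
  omega

lemma gg_00 (d : ℝ → ℝ) (α : Fin 2 → ℕ) (h0 : α 0 = 0) (h1 : α 1 = 0) (x : E2) :
    gg d α x = (ff d (e2 x) : ℂ) := by
  unfold gg; rw [if_pos ⟨h0, h1⟩]

lemma gg_10 (d : ℝ → ℝ) (α : Fin 2 → ℕ) (h0 : α 0 = 1) (h1 : α 1 = 0) (x : E2) :
    gg d α x = (ffx d (e2 x) : ℂ) := by
  unfold gg; rw [if_neg (by omega), if_pos ⟨h0, h1⟩]

lemma gg_01 (d : ℝ → ℝ) (α : Fin 2 → ℕ) (h0 : α 0 = 0) (h1 : α 1 = 1) (x : E2) :
    gg d α x = (ffy d (e2 x) : ℂ) := by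
  unfold gg; rw [if_neg (by omega), if_neg (by omega), if_pos ⟨h0, h1⟩]

lemma loc_int (g : ℝ × ℝ → ℝ) (hg : ∀ R, 0 ≤ R → IntegrableOn g (sq R)) :
    LocallyIntegrable (fun x : E2 => (g (e2 x) : ℂ)) volume := by
  rw [locallyIntegrable_iff]
  intro k hk
  obtain ⟨R, hR⟩ := hk.isBounded.subset_closedBall (0 : E2)
  have hsub : k ⊆ e2 ⁻¹' (sq (max R 0)) := by
    intro x hx
    have h := hR hx
    rw [mem_closedBall_zero_iff] at h
    have h0 : |x 0| ≤ max R 0 := by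
      have := (PiLp.norm_apply_le x 0).trans (h.trans (le_max_left R 0))
      rwa [Real.norm_eq_abs] at this
    have h1 : |x 1| ≤ max R 0 := by
      have := (PiLp.norm_apply_le x 1).trans (h.trans (le_max_left R 0))
      rwa [Real.norm_eq_abs] at this
    rw [abs_le] at h0 h1
    exact ⟨⟨h0.1, h0.2⟩, ⟨h1.1, h1.2⟩⟩
  refine IntegrableOn.mono_set ?_ hsub
  have h1 : IntegrableOn (fun p => (g p : ℂ)) (sq (max R 0)) :=
    (hg _ (le_max_right _ _)).ofReal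
  exact (e2_mp.integrableOn_comp_preimage e2.measurableEmbedding).2 h1

lemma int_transfer (F : ℝ × ℝ → ℂ) (G : E2 → ℂ) :
    ∫ x, F (e2 x) * G x = ∫ p, F p * G (io p) := by
  rw [← e2_mp.integral_comp' (fun p => F p * G (io p))]
  simp only [io_e2]

/-- full compact set in the plane -/
def Kf : Set (ℝ × ℝ) := {p | |p.2| ≤ 2 ∧ Metric.infDist p.1 E ≤ 2 * |p.2|}

def KK : Set E2 := e2 ⁻¹' Kf

lemma Kf_closed : IsClosed Kf := by
  have h1 : IsClosed {p : ℝ × ℝ | |p.2| ≤ 2} :=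
    isClosed_le (continuous_abs.comp continuous_snd) continuous_const
  have h2 : IsClosed {p : ℝ × ℝ | Metric.infDist p.1 E ≤ 2 * |p.2|} :=
    isClosed_le ((Metric.continuous_infDist_pt E).comp continuous_fst) (by fun_prop)
  exact h1.inter h2

lemma KK_closed : IsClosed KK := Kf_closed.preimage e2_cont

lemma KK_ball : KK ⊆ Metric.ball (0 : E2) 10 := by
  intro x hx
  rw [mem_ball_zero_iff]
  obtain ⟨h1, h2⟩ : |x 1| ≤ 2 ∧ Metric.infDist (x 0) E ≤ 2 * |x 1| := hx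
  have h3 := Ky_bdd _ h2
  have h4 : |x 0| ≤ 5 := by
    rw [abs_le]; constructor <;> linarith [h3.1, h3.2]
  rw [EuclideanSpace.norm_eq, Fin.sum_univ_two, Real.norm_eq_abs, Real.norm_eq_abs]
  rw [Real.sqrt_lt' (by norm_num)]
  have h5 := abs_nonneg (x 0)
  have h6 := abs_nonneg (x 1)
  nlinarith

lemma KK_compact : IsCompact KK :=
  Metric.isCompact_of_isClosed_isBounded KK_closed (Metric.isBounded_ball.subset KK_ball)

/-- transfer of bounds from the ball to `Kp` -/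
lemma trans_bound (e : E2 ≃ᵐ ℝ × ℝ) (he : MeasurePreserving e volume volume)
    (hK : e ⁻¹' Kp ⊆ Metric.ball 0 10) (F : ℝ × ℝ → ℝ) (G : E2 → ℝ) (hG0 : ∀ x, 0 ≤ G x)
    (hGi : IntegrableOn G (Metric.ball 0 10)) (ε : ℝ)
    (hG : ∫ x in Metric.ball 0 10, G x < ε)
    (hFG : ∀ᵐ x, x ∈ e ⁻¹' Kp → F (e x) = G x) : ∫ p in Kp, F p < ε := by
  rw [← he.setIntegral_preimage_emb e.measurableEmbedding F Kp]
  have hm : MeasurableSet (e ⁻¹' Kp) := e.measurable Kp_closed.measurableSet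
  rw [setIntegral_congr_ae hm hFG]
  refine lt_of_le_of_lt ?_ hG
  apply setIntegral_mono_set hGi
  · exact Filter.Eventually.of_forall hG0
  · exact hK.eventuallyLE

/-- reflection -/
noncomputable def e2m : E2 ≃ᵐ ℝ × ℝ :=
  e2.trans ((MeasurableEquiv.refl ℝ).prodCongr (MeasurableEquiv.neg ℝ))

lemma e2m_apply (x : E2) : e2m x = (x 0, -x 1) := rfl

lemma e2m_mp : MeasurePreserving e2m volume volume := by
  unfold e2m
  have h : MeasurePreserving ((MeasurableEquiv.refl ℝ).prodCongr (MeasurableEquiv.neg ℝ))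
      (volume : Measure (ℝ × ℝ)) volume :=
    (MeasurePreserving.id volume).prod (Measure.measurePreserving_neg volume)
  exact e2_mp.trans h

lemma pre_e2 : e2 ⁻¹' Kp ⊆ KK := by
  intro x hx
  obtain ⟨h1, h2, h3⟩ : 0 ≤ x 1 ∧ x 1 ≤ 2 ∧ Metric.infDist (x 0) E ≤ 2 * x 1 := hx
  show |x 1| ≤ 2 ∧ Metric.infDist (x 0) E ≤ 2 * |x 1|
  rw [abs_of_nonneg h1]
  exact ⟨h2, h3⟩

lemma pre_e2m : e2m ⁻¹' Kp ⊆ KK := by
  intro x hx
  obtain ⟨h1, h2, h3⟩ : 0 ≤ -x 1 ∧ -x 1 ≤ 2 ∧ Metric.infDist (x 0) E ≤ 2 * (-x 1) := hx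
  show |x 1| ≤ 2 ∧ Metric.infDist (x 0) E ≤ 2 * |x 1|
  rw [abs_of_nonpos (by linarith)]
  exact ⟨h2, h3⟩

lemma io_mem_KK_of_Kp (p : ℝ × ℝ) (hp : p ∈ Kp) : io p ∈ KK := by
  apply pre_e2
  rw [mem_preimage, e2_io]; exact hp

lemma io_mem_KK_of_Kp' (p : ℝ × ℝ) (hp : p ∈ Kp) : io (p.1, -p.2) ∈ KK := by
  apply pre_e2m
  rw [mem_preimage, e2m_apply, io_zero, io_one]
  simpa using hp

lemma ae_ne : ∀ᵐ x : E2, x 1 ≠ 0 := by
  have h : ∀ᵐ p : ℝ × ℝ, p.2 ≠ 0 := by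
    have h0 : ∀ᵐ y : ℝ, y ≠ 0 := by rw [ae_iff]; simp
    exact Measure.quasiMeasurePreserving_snd.ae h0
  exact e2_mp.quasiMeasurePreserving.ae h

/-- no point of the real axis is interior -/
lemma interior_ne (x : E2) (hx : x ∈ interior KK) : x 1 ≠ 0 := by
  intro h0
  have h1 : KK ∈ 𝓝 x := mem_interior_iff_mem_nhds.1 hx
  have h2 : Tendsto (fun t : ℝ => io (t, 0)) (𝓝 (x 0)) (𝓝 x) := by
    have hc : Continuous (fun t : ℝ => io (t, 0)) := by fun_prop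
    have := hc.tendsto (x 0)
    have e : io (x 0, 0) = x := by
      have := io_e2 x
      rw [e2_apply, h0] at this
      exact this
    rwa [e] at this
  have h3 : ∀ᶠ t in 𝓝 (x 0), t ∈ E := by
    filter_upwards [h2 h1] with t ht
    obtain ⟨_, h4⟩ : |(io (t, 0)) 1| ≤ 2 ∧ Metric.infDist ((io (t, 0)) 0) E ≤
      2 * |(io (t, 0)) 1| := ht
    rw [io_zero, io_one] at h4
    simp only [abs_zero, mul_zero] at h4
    have h5 : Metric.infDist t E = 0 := le_antisymm h4 Metric.infDist_nonneg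
    exact (E_closed.mem_iff_infDist_zero E_nonempty).2 h5
  rw [Metric.eventually_nhds_iff_ball] at h3
  obtain ⟨r, hr, hb⟩ := h3
  have h6 : volume (Metric.ball (x 0) r) ≤ volume E := measure_mono hb
  rw [E_null] at h6
  have h7 : 0 < volume (Metric.ball (x 0) r) := Metric.measure_ball_pos volume _ hr
  exact absurd h6 (not_le.2 h7)

end Pool.Agent.W34023b
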