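import Mathlib
import Pool.Agent.W34023b.M

set_option autoImplicit false
open MeasureTheory Set Filter Topology

namespace Pool.Agent.W34023b

lemma hc1 (β : Fin 2 → Fin (1 + 1)) (h : ∑ i, (β i : ℕ) ≠ 1) : cc β = 0 := by
  unfold cc
  rw [if_neg, if_neg]
  · rintro ⟨a, b⟩
    apply h; rw [Fin.sum_univ_two, a, b]; rfl
  · rintro ⟨a, b⟩
    apply h; rw [Fin.sum_univ_two, a, b]; rfl

lemma hc2 (ξ : Fin 2 → ℝ) (h : ξ ≠ 0) : ∑ β, cc β * ∏ i, ((ξ i : ℂ) ^ (β i : ℕ)) ≠ 0 := by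
  rw [sum_cc (fun β => ∏ i, ((ξ i : ℂ) ^ (β i : ℕ)))]
  simp only [Fin.prod_univ_two]
  simp only [Matrix.cons_val_zero, Matrix.cons_val_one]
  have e1 : ((1 : Fin (1+1)) : ℕ) = 1 := rfl
  have e0 : ((0 : Fin (1+1)) : ℕ) = 0 := rfl
  rw [e1, e0]
  simp only [pow_one, pow_zero, mul_one, one_mul]
  intro h0
  apply h
  have hre := congrArg Complex.re h0
  have him := congrArg Complex.im h0
  simp at hre him
  ext i; fin_cases i
  · exact hre
  · exact him

section
variable (d : ℝ → ℝ) (hd : ContDiff ℝ 1 d) (hd0 : ∀ x, 0 ≤ d x) (hdE : ∀ x, d x = 0 ↔ x ∈ E)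
include hd hd0 hdE

lemma hg (α : Fin 2 → ℕ) (hα : ∑ i, α i ≤ 1) :
    LocallyIntegrable (gg d α) volume ∧
      ∀ φ : E2 → ℂ, ContDiff ℝ (⊤ : ℕ∞) φ → HasCompactSupport φ →
        ∫ x, gg d α x * φ x = (-1 : ℂ) ^ (∑ i, α i) * ∫ x, gg d 0 x * Dop α φ x := by
  have e0 : ∀ x, gg d 0 x = (ff d (e2 x) : ℂ) := gg_00 d 0 rfl rfl
  rcases cases_alpha α hα with ⟨h0, h1⟩ | ⟨h0, h1⟩ | ⟨h0, h1⟩
  · have e : gg d α = fun x => (ff d (e2 x) : ℂ) := funext (gg_00 d α h0 h1)
    constructor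
    · rw [e]; exact loc_int (ff d) (fun R _ => ff_integrable d hd R)
    · intro φ hφ hc
      rw [Dop_00 α h0 h1, Fin.sum_univ_two, h0, h1, e]
      simp only [e0]
      simp
  · have e : gg d α = fun x => (ffx d (e2 x) : ℂ) := funext (gg_10 d α h0 h1)
    constructor
    · rw [e]; exact loc_int (ffx d) (ffx_integrable d hd hd0 hdE)
    · intro φ hφ hc
      have hφ1 : ContDiff ℝ 1 φ := hφ.of_le (by exact_mod_cast le_top)
      have hφd : Differentiable ℝ φ := hφ1.differentiable (by norm_num)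
      rw [Dop_10 α h0 h1, Fin.sum_univ_two, h0, h1, e]
      simp only [e0]
      rw [int_transfer (fun p => (ffx d p : ℂ)) φ,
        int_transfer (fun p => (ff d p : ℂ)) (fun x => fderiv ℝ φ x (EuclideanSpace.single 0 1))]
      have hw := weak_x d hd hd0 hdE (fun p => φ (io p)) (hφ1.comp io.contDiff) (compact_io φ hc)
      rw [hw]
      simp only [fderiv_io φ hφd, io_e1]
      simp
  · have e : gg d α = fun x => (ffy d (e2 x) : ℂ) := funext (gg_01 d α h0 h1)
    constructor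
    · rw [e]; exact loc_int (ffy d) (ffy_integrable d hd hd0 hdE)
    · intro φ hφ hc
      have hφ1 : ContDiff ℝ 1 φ := hφ.of_le (by exact_mod_cast le_top)
      have hφd : Differentiable ℝ φ := hφ1.differentiable (by norm_num)
      rw [Dop_01 α h0 h1, Fin.sum_univ_two, h0, h1, e]
      simp only [e0]
      rw [int_transfer (fun p => (ffy d p : ℂ)) φ,
        int_transfer (fun p => (ff d p : ℂ)) (fun x => fderiv ℝ φ x (EuclideanSpace.single 1 1))]
      have hw := weak_y d hd hd0 hdE (fun p => φ (io p)) (hφ1.comp io.contDiff) (compact_io φ hc)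
      rw [hw]
      simp only [fderiv_io φ hφd, io_e2']
      simp

end

section
variable (d : ℝ → ℝ) (hd0 : ∀ x, 0 ≤ d x)
  (hdb : ∀ x ∈ Icc (-4:ℝ) 5, d x ≤ Metric.infDist x E / 2)
include hdb

lemma d_le (x : E2) (hx : x ∈ KK) : d (e2 x).1 ≤ |(e2 x).2| := by
  obtain ⟨h1, h2⟩ : |x 1| ≤ 2 ∧ Metric.infDist (x 0) E ≤ 2 * |x 1| := hx
  have h3 := Ky_bdd _ h2
  have h4 : x 0 ∈ Icc (-4:ℝ) 5 := by
    constructor <;> linarith [h3.1, h3.2]
  have h5 := hdb _ h4
  show d (x 0) ≤ |x 1|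
  linarith

lemma hP (α : Fin 2 → ℕ) (hα : ∑ i, α i + 1 ≤ 1) :
    (fun x => ∑ β, cc β * gg d (fun i => α i + (β i : ℕ)) x) =ᵐ[volume.restrict KK] 0 := by
  filter_upwards [ae_restrict_mem KK_closed.measurableSet] with x hx
  rw [sum_cc (fun β => gg d (fun i => α i + (β i : ℕ)) x)]
  have hα0 : α 0 = 0 ∧ α 1 = 0 := by
    rw [Fin.sum_univ_two] at hα; omega
  have hle := d_le d hdb x hx
  rw [gg_10, gg_01, ffx_zero d _ hle, ffy_zero d _ hle]
  · simp
  · simp [hα0.1]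
  · simp [hα0.2]
  · simp [hα0.1]
  · simp [hα0.2]

include hd0

lemma hv : ∃ v : E2 → ℂ, ContDiffOn ℝ (⊤ : ℕ∞) v (interior KK) ∧
      (∀ x ∈ interior KK, ∑ β, cc β * Dop (fun i => (β i : ℕ)) v x = 0) ∧
      gg d 0 =ᵐ[volume.restrict (interior KK)] v := by
  refine ⟨fun x => if 0 < x 1 then 1 else 0, ?_, ?_, ?_⟩
  · intro x hx
    apply ContDiffAt.contDiffWithinAt
    have hne := interior_ne x hx
    have hc : Continuous (fun x : E2 => x 1) := by fun_prop
    rcases lt_or_gt_of_ne hne with h | h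
    · have : (fun x : E2 => if 0 < x 1 then (1:ℂ) else 0) =ᶠ[𝓝 x] fun _ => 0 := by
        filter_upwards [hc.tendsto x (Iio_mem_nhds h)] with z hz
        rw [if_neg (not_lt.2 (le_of_lt hz))]
      exact contDiffAt_const.congr_of_eventuallyEq this
    · have : (fun x : E2 => if 0 < x 1 then (1:ℂ) else 0) =ᶠ[𝓝 x] fun _ => 1 := by
        filter_upwards [hc.tendsto x (Ioi_mem_nhds h)] with z hz
        exact if_pos hz
      exact contDiffAt_const.congr_of_eventuallyEq this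
  · intro x hx
    rw [sum_cc (fun β => Dop (fun i => (β i : ℕ)) _ x)]
    have hfd : fderiv ℝ (fun x : E2 => if 0 < x 1 then (1:ℂ) else 0) x = 0 := by
      have hne := interior_ne x hx
      have hc : Continuous (fun x : E2 => x 1) := by fun_prop
      rcases lt_or_gt_of_ne hne with h | h
      · have : (fun x : E2 => if 0 < x 1 then (1:ℂ) else 0) =ᶠ[𝓝 x] fun _ => 0 := by
          filter_upwards [hc.tendsto x (Iio_mem_nhds h)] with z hz
          rw [if_neg (not_lt.2 (le_of_lt hz))]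
        rw [this.fderiv_eq]; simp
      · have : (fun x : E2 => if 0 < x 1 then (1:ℂ) else 0) =ᶠ[𝓝 x] fun _ => 1 := by
          filter_upwards [hc.tendsto x (Ioi_mem_nhds h)] with z hz
          exact if_pos hz
        rw [this.fderiv_eq]; simp
    rw [Dop_10 _ rfl rfl, Dop_01 _ rfl rfl]
    simp only [hfd]
    simp
  · filter_upwards [ae_restrict_mem isOpen_interior.measurableSet] with x hx
    have hne := interior_ne x hx
    have hle := d_le d hdb x (interior_subset hx)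
    rw [gg_00 d 0 rfl rfl]
    rcases lt_or_gt_of_ne hne with h | h
    · rw [if_neg (not_lt.2 h.le), ff_zero d _ hle h.le]; simp
    · rw [if_pos h, ff_one d hd0 _ hle h]; simp

end

/-- The contradiction. -/
theorem contra (d : ℝ → ℝ) (hd : ContDiff ℝ 1 d) (hd0 : ∀ x, 0 ≤ d x)
    (hdE : ∀ x, d x = 0 ↔ x ∈ E)
    (hdb : ∀ x ∈ Icc (-4:ℝ) 5, d x ≤ Metric.infDist x E / 2)
    (H : ∃ u : E2 → ℂ, ContDiff ℝ (⊤ : ℕ∞) u ∧
      ∃ U : Set E2, IsOpen U ∧ KK ⊆ U ∧
        (∀ x ∈ U, ∑ β, cc β * Dop (fun i => (β i : ℕ)) u x = 0) ∧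
      ∃ m : (Fin 2 → ℕ) → E2 → ℂ,
        (∀ α : Fin 2 → ℕ, ∑ i, α i ≤ 1 →
          LocallyIntegrable (m α) volume ∧
          (∀ φ : E2 → ℂ, ContDiff ℝ (⊤ : ℕ∞) φ → HasCompactSupport φ →
            ∫ x, m α x * φ x = (-1 : ℂ) ^ (∑ i, α i) * ∫ x, m 0 x * Dop α φ x) ∧
          m α =ᵐ[volume.restrict KK] 0) ∧
        ∀ α : Fin 2 → ℕ, ∑ i, α i ≤ 1 →
          ∫ x in Metric.ball (0 : E2) 10, ‖gg d α x - Dop α u x - m α x‖ < 1/200) : False := by
  obtain ⟨u, hu, U, _, hKU, hpde, m, hm, hfin⟩ := H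
  have hu1 : ContDiff ℝ 1 u := hu.of_le (by exact_mod_cast le_top)
  have hud : Differentiable ℝ u := hu1.differentiable (by norm_num)
  have huc : Continuous (fderiv ℝ u) := hu1.continuous_fderiv (by norm_num)
  set h : ℝ × ℝ → ℂ := fun p => u (io p) with hh
  have hh1 : ContDiff ℝ 1 h := hu1.comp io.contDiff
  have hfd : ∀ p v, fderiv ℝ h p v = fderiv ℝ u (io p) (io v) := fderiv_io u hud
  have hpde' : ∀ x ∈ KK, fderiv ℝ u x (EuclideanSpace.single 1 1) =
      Complex.I * fderiv ℝ u x (EuclideanSpace.single 0 1) := by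
    intro x hx
    have h0 := hpde x (hKU hx)
    rw [sum_cc (fun β => Dop (fun i => (β i : ℕ)) u x), Dop_10 _ rfl rfl, Dop_01 _ rfl rfl] at h0
    have hI := Complex.I_mul_I
    linear_combination (-Complex.I) * h0 +
      (fderiv ℝ u x (EuclideanSpace.single 1 1)) * hI
  have HK1 : ∀ p ∈ Kp, fderiv ℝ h p (0, 1) = Complex.I * fderiv ℝ h p (1, 0) := by
    intro p hp
    rw [hfd, hfd, io_e1, io_e2']
    exact hpde' _ (io_mem_KK_of_Kp p hp)
  have HK2 : ∀ p ∈ Kp, fderiv ℝ h (p.1, -p.2) (0, 1) =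
      Complex.I * fderiv ℝ h (p.1, -p.2) (1, 0) := by
    intro p hp
    rw [hfd, hfd, io_e1, io_e2']
    exact hpde' _ (io_mem_KK_of_Kp' p hp)
  have hmain := main_ineq h hh1 HK1 HK2
  -- bounds
  have s0 : ∑ i, (![0, 0] : Fin 2 → ℕ) i ≤ 1 := by simp
  have s1 : ∑ i, (![1, 0] : Fin 2 → ℕ) i ≤ 1 := by simp
  have hint : ∀ α : Fin 2 → ℕ, ∑ i, α i ≤ 1 → Continuous (Dop α u) →
      IntegrableOn (fun x => ‖gg d α x - Dop α u x - m α x‖) (Metric.ball 0 10) := by
    intro α hα hcont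
    have i1 := (hg d hd hd0 hdE α hα).1
    have i2 := hcont.locallyIntegrable (μ := (volume : Measure E2))
    have i3 := (hm α hα).1
    have i4 := ((i1.sub i2).sub i3)
    have i5 := (i4.integrableOn_isCompact (isCompact_closedBall (0 : E2) 10)).mono_set
      Metric.ball_subset_closedBall
    exact i5.norm
  have c0 : Continuous (Dop ![0, 0] u) := by
    rw [Dop_00 _ rfl rfl]; exact hu1.continuous
  have c1 : Continuous (Dop ![1, 0] u) := by
    rw [Dop_10 _ rfl rfl]; exact huc.clm_apply continuous_const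
  have m0 : ∀ᵐ x, x ∈ KK → m ![0, 0] x = 0 := by
    have := (hm ![0, 0] s0).2.2
    rw [Filter.EventuallyEq, ae_restrict_iff' KK_closed.measurableSet] at this
    exact this
  have m1 : ∀ᵐ x, x ∈ KK → m ![1, 0] x = 0 := by
    have := (hm ![1, 0] s1).2.2
    rw [Filter.EventuallyEq, ae_restrict_iff' KK_closed.measurableSet] at this
    exact this
  have b1 : ∫ p in Kp, ‖h p - 1‖ < 1/200 := by
    apply trans_bound e2 e2_mp (pre_e2.trans KK_ball) _
      (fun x => ‖gg d ![0, 0] x - Dop ![0, 0] u x - m ![0, 0] x‖) (fun x => norm_nonneg _)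
      (hint _ s0 c0) _ (hfin _ s0)
    filter_upwards [m0, ae_ne] with x hx hne hxK
    have hK := pre_e2 hxK
    have hpos : 0 < (e2 x).2 := lt_of_le_of_ne hxK.1 (Ne.symm hne)
    rw [hx hK, gg_00 d _ rfl rfl, ff_one d hd0 _ (d_le d hdb x hK) hpos, Dop_00 _ rfl rfl]
    simp only [hh, io_e2, Complex.ofReal_one, sub_zero]
    exact norm_sub_rev _ _
  have b2 : ∫ p in Kp, ‖h (p.1, -p.2)‖ < 1/200 := by
    apply trans_bound e2m e2m_mp (pre_e2m.trans KK_ball) _
      (fun x => ‖gg d ![0, 0] x - Dop ![0, 0] u x - m ![0, 0] x‖) (fun x => norm_nonneg _)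
      (hint _ s0 c0) _ (hfin _ s0)
    filter_upwards [m0] with x hx hxK
    have hK := pre_e2m hxK
    have hneg : (e2 x).2 ≤ 0 := by
      have : 0 ≤ -(e2 x).2 := hxK.1
      linarith
    rw [hx hK, gg_00 d _ rfl rfl, ff_zero d _ (d_le d hdb x hK) hneg, Dop_00 _ rfl rfl]
    have e : io ((e2m x).1, -(e2m x).2) = x := by
      have := io_e2 x
      rw [e2m_apply]
      simp only [neg_neg]
      exact this
    simp only [hh, e, Complex.ofReal_zero, sub_zero, zero_sub, norm_neg]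
  have b3 : ∫ p in Kp, ‖fderiv ℝ h p (1, 0)‖ < 1/200 := by
    apply trans_bound e2 e2_mp (pre_e2.trans KK_ball) _
      (fun x => ‖gg d ![1, 0] x - Dop ![1, 0] u x - m ![1, 0] x‖) (fun x => norm_nonneg _)
      (hint _ s1 c1) _ (hfin _ s1)
    filter_upwards [m1] with x hx hxK
    have hK := pre_e2 hxK
    rw [hx hK, gg_10 d _ rfl rfl, ffx_zero d _ (d_le d hdb x hK), Dop_10 _ rfl rfl, hfd, io_e1,
      io_e2]
    simp
  have b4 : ∫ p in Kp, ‖fderiv ℝ h (p.1, -p.2) (1, 0)‖ < 1/200 := by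
    apply trans_bound e2m e2m_mp (pre_e2m.trans KK_ball) _
      (fun x => ‖gg d ![1, 0] x - Dop ![1, 0] u x - m ![1, 0] x‖) (fun x => norm_nonneg _)
      (hint _ s1 c1) _ (hfin _ s1)
    filter_upwards [m1] with x hx hxK
    have hK := pre_e2m hxK
    have e : io ((e2m x).1, -(e2m x).2) = x := by
      have := io_e2 x
      rw [e2m_apply]
      simp only [neg_neg]
      exact this
    rw [hx hK, gg_10 d _ rfl rfl, ffx_zero d _ (d_le d hdb x hK), Dop_10 _ rfl rfl, hfd, io_e1, e]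
    simp
  linarith

end Pool.Agent.W34023b
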